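import Pool.Agent.Lib.MP_f3dc04_al.Elim

/-!
Free nilpotent groups are residually finite `p`-groups.
-/

namespace Pool.Agent.Lib.MP_f3dc04_al

open Subgroup
open scoped commutatorElement

lemma resP_of_top (p : ℕ) {G : Type*} [Group G] {K : Subgroup G} (h : K = ⊤) : ResP p K := by
  intro g hg
  exact absurd (by rw [h]; trivial) hg

/-- one elimination step -/
lemma resP_step (p : ℕ) [hp : Fact p.Prime] {Y : Type} [Finite Y] (wt : Y → ℕ) (n w : ℕ) (x : Y)
    (hw1 : 1 ≤ w) (hwn : w < n) (hw : ∀ y, w ≤ wt y) (hx : wt x = w)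
    (IH : ResP p (ngam wt n w x n)) : ResP p (gam wt n) := by
  classical
  intro g hg
  obtain ⟨k, h, γ, hγ, e⟩ := exists_theta wt n w x hw1 hx g
  by_cases hk : k = 0
  · subst hk
    rw [zpow_zero, mul_one] at e
    have hh : h ∉ ngam wt n w x n := by
      intro hh
      apply hg
      rw [e]
      exact mul_mem (theta_mem wt n w x hx n h hh) hγ
    obtain ⟨E', _, _, φ', hE', hker, hne⟩ := IH h hh
    obtain ⟨E, iE, fE, Ψ, hE, hΨ, hΨh⟩ := exists_psi wt n w x p hw1 hwn hw hx h E' hE' φ' hker hne
    refine ⟨E, iE, fE, Ψ, hE, hΨ, ?_⟩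
    rw [e, map_mul, (hΨ hγ : Ψ γ = 1), mul_one]
    exact hΨh
  · obtain ⟨m, hm⟩ : ∃ m : ℕ, k.natAbs < p ^ m := ⟨k.natAbs, Nat.lt_pow_self hp.out.one_lt⟩
    have : NeZero (p ^ m) := ⟨pow_ne_zero _ hp.out.ne_zero⟩
    let E := Multiplicative (ZMod (p ^ m))
    let φ : FreeGroup Y →* E :=
      FreeGroup.lift fun y => if y = x then Multiplicative.ofAdd 1 else 1
    have hφcc : ∀ (y : Y), y ≠ x → ∀ j, φ (cc x y j) = 1 := by
      intro y hy j
      induction j with
      | zero => simp [cc, φ, hy]
      | succ j ih =>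
        rw [cc, map_mul, map_mul, map_mul, map_inv, map_inv, ih, inv_one, one_mul, mul_one,
          mul_inv_cancel]
    have hφtheta : ∀ u, φ (theta n x u) = 1 := by
      intro u
      have : φ.comp (theta n x) = 1 := by
        apply FreeGroup.ext_hom
        intro a
        rw [MonoidHom.comp_apply, theta_of, hφcc _ a.1.2, MonoidHom.one_apply]
      exact DFunLike.congr_fun this u
    have hEN : IsNSer (fun j => if j ≤ w then (⊤ : Subgroup E) else ⊥) := by
      refine ⟨?_, ?_, ?_⟩
      · intro a b hab
        by_cases ha : a ≤ w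
        · simp only [if_pos ha]; exact le_top
        · have hb : ¬ b ≤ w := by omega
          simp only [if_neg ha, if_neg hb]; exact le_refl _
      · simp only [Nat.zero_le, if_true]
      · intro i j
        rw [commutator_le]
        intro a _ b _
        have : ⁅a, b⁆ = 1 := by
          rw [commutatorElement_eq_one_iff_mul_comm]; exact mul_comm a b
        rw [this]; exact one_mem _
    have hker : gam wt n ≤ φ.ker := by
      have h1 := wser_le (hEN.comap φ) (g := FreeGroup.of) (wt := wt) (by
        intro y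
        rw [mem_comap]
        by_cases hy : y = x
        · have : wt y ≤ w := by rw [hy, hx]
          simp only [if_pos this]; trivial
        · have : φ (FreeGroup.of y) = 1 := by simp [φ, hy]
          rw [this]; exact one_mem _) n
      intro u hu
      have h2 := h1 hu
      rw [mem_comap, if_neg (by omega), mem_bot] at h2
      exact h2
    have hEp : IsPGroup p E := by
      apply IsPGroup.of_card (n := m)
      rw [Nat.card_congr (Multiplicative.toAdd : E ≃ ZMod (p ^ m)), Nat.card_zmod]
    refine ⟨E, inferInstance, inferInstance, φ, hEp, hker, ?_⟩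
    intro hcon
    have h1 : φ (g * FreeGroup.of x ^ k) = 1 := by
      rw [e, map_mul, hφtheta, (hker hγ : φ γ = 1), mul_one]
    rw [map_mul, hcon, one_mul, map_zpow] at h1
    have h2 : φ (FreeGroup.of x) = Multiplicative.ofAdd (1 : ZMod (p ^ m)) := by simp [φ]
    rw [h2, ← ofAdd_zsmul, ofAdd_eq_one, zsmul_one] at h1
    rw [ZMod.intCast_zmod_eq_zero_iff_dvd] at h1
    have h3 := Int.le_of_dvd (a := ((p ^ m : ℕ) : ℤ)) (b := |k|) (abs_pos.2 hk)
      ((dvd_abs _ _).2 h1)
    have h4 : (k.natAbs : ℤ) = |k| := Int.natCast_natAbs k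
    rw [← h4] at h3
    exact absurd (by exact_mod_cast h3) (not_le.2 hm)

/-- counting the letters of minimal weight after an elimination -/
lemma card_nwt {Y : Type} [Finite Y] (wt : Y → ℕ) (n w : ℕ) (x : Y) (hw1 : 1 ≤ w) (hn : 0 < n)
    (hw : ∀ y, w ≤ wt y) (hx : wt x = w) :
    Nat.card {a : NY x n // nwt wt n w x a = w} + 1 = Nat.card {y : Y // wt y = w} := by
  classical
  have e : {a : NY x n // nwt wt n w x a = w} ≃ {y : {y : Y // wt y = w} // y ≠ ⟨x, hx⟩} := by
    have key : ∀ a : NY x n, nwt wt n w x a = w → wt a.1.1 = w ∧ a.2.val = 0 := by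
      rintro ⟨⟨y, hy⟩, j⟩ h
      have h1 := hw y
      unfold nwt at h
      simp only at h ⊢
      have h2 : j.val * w = 0 := by omega
      have h3 : j.val = 0 := by
        rcases Nat.mul_eq_zero.1 h2 with h | h
        · exact h
        · omega
      exact ⟨by omega, h3⟩
    refine ⟨fun a => ⟨⟨a.1.1.1, (key a.1 a.2).1⟩, ?_⟩,
      fun y => ⟨(⟨y.1.1, ?_⟩, ⟨0, hn⟩), ?_⟩, ?_, ?_⟩
    · intro h
      exact a.1.1.2 (congrArg (fun z => z.1) h)
    · intro h
      apply y.2
      apply Subtype.ext
      exact h
    · unfold nwt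
      simp only [zero_mul, add_zero]
      exact y.1.2
    · rintro ⟨⟨⟨y, hy⟩, j⟩, h⟩
      have := (key _ h).2
      apply Subtype.ext
      apply Prod.ext
      · rfl
      · apply Fin.ext
        exact this.symm
    · rintro ⟨⟨y, hy⟩, h⟩
      rfl
  rw [Nat.card_congr e]
  have h1 : Nat.card {y : {y : Y // wt y = w} // y ≠ ⟨x, hx⟩} = Nat.card {y : Y // wt y = w} - 1 := by
    have := Fintype.ofFinite {y : Y // wt y = w}
    rw [Nat.card_eq_fintype_card, Nat.card_eq_fintype_card, Fintype.card_subtype_compl,
      Fintype.card_subtype_eq]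
  have h2 : 0 < Nat.card {y : Y // wt y = w} := by
    have : Nonempty {y : Y // wt y = w} := ⟨⟨x, hx⟩⟩
    exact Nat.card_pos
  omega

/-- Quotients of finitely generated free groups by weighted lower central series terms are
residually finite `p`-groups. -/
theorem resP_wser (p : ℕ) [hp : Fact p.Prime] (n : ℕ) :
    ∀ (i w : ℕ), n ≤ w + i → 1 ≤ w → ∀ (Y : Type) [Finite Y] (wt : Y → ℕ),
      (∀ y, w ≤ wt y) → ResP p (gam wt n) := by
  intro i
  induction i with
  | zero =>
    intro w hwn _ Y _ wt hw
    apply resP_of_top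
    exact wser_eq_top (closure_range_of _) (fun y => le_trans (by omega) (hw y))
  | succ i ih =>
    intro w hwn hw1
    by_cases hcase : n ≤ w
    · intro Y _ wt hw
      apply resP_of_top
      exact wser_eq_top (closure_range_of _) (fun y => le_trans hcase (hw y))
    push Not at hcase
    have main : ∀ c : ℕ, ∀ (Y : Type) [Finite Y] (wt : Y → ℕ), (∀ y, w ≤ wt y) →
        Nat.card {y : Y // wt y = w} = c → ResP p (gam wt n) := by
      intro c
      induction c with
      | zero =>
        intro Y _ wt hw hc
        apply ih (w + 1) (by omega) (by omega) Y wt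
        intro y
        have h1 := hw y
        have h2 : wt y ≠ w := by
          intro h
          have : Nonempty {y : Y // wt y = w} := ⟨⟨y, h⟩⟩
          have := Nat.card_pos (α := {y : Y // wt y = w})
          omega
        omega
      | succ c ihc =>
        intro Y _ wt hw hc
        obtain ⟨⟨x, hx⟩⟩ : Nonempty {y : Y // wt y = w} := by
          rw [← not_isEmpty_iff]
          intro h
          rw [Nat.card_of_isEmpty] at hc
          omega
        apply resP_step p wt n w x hw1 hcase hw hx
        apply ihc (NY x n) (nwt wt n w x)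
        · intro a
          exact (hw a.1).trans (Nat.le_add_right _ _)
        · have := card_nwt wt n w x hw1 (by omega) hw hx
          omega
    intro Y _ wt hw
    exact main _ Y wt hw rfl

/-- the lower central series as a weighted series -/
lemma wser_eq_lcs (Y : Type) (n : ℕ) :
    wser (FreeGroup.of : Y → FreeGroup Y) (fun _ => 1) (n + 1) =
      (⊤ : Subgroup (FreeGroup Y)).lowerCentralSeries n := by
  apply le_antisymm
  · have hs : IsNSer (fun k => (⊤ : Subgroup (FreeGroup Y)).lowerCentralSeries (k - 1)) := by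
      refine ⟨?_, ?_, ?_⟩
      · intro a b hab
        exact Subgroup.lowerCentralSeries_antitone _ (by omega)
      · simp
      · intro i j
        rcases Nat.eq_zero_or_pos i with hi | hi
        · subst hi
          simp only [zero_tsub, zero_add, Subgroup.lowerCentralSeries_zero]
          rw [commutator_top_left_le_iff]
          infer_instance
        rcases Nat.eq_zero_or_pos j with hj | hj
        · subst hj
          simp only [zero_tsub, add_zero, Subgroup.lowerCentralSeries_zero]
          rw [commutator_top_right_le_iff]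
          infer_instance
        refine (lcs_comm _ (i - 1) (j - 1)).trans (le_of_eq ?_)
        congr 1
        omega
    exact wser_le hs (fun y => by simp) (n + 1)
  · induction n with
    | zero =>
      rw [zero_add, wser_eq_top (closure_range_of _) (fun _ => le_refl 1)]
      exact le_top
    | succ n ih =>
      rw [Subgroup.lowerCentralSeries_succ]
      have h1 : (⊤ : Subgroup (FreeGroup Y)) ≤ wser FreeGroup.of (fun _ => 1) 1 := by
        rw [wser_eq_top (closure_range_of _) (fun _ => le_refl 1)]
      exact (commutator_mono ih h1).trans ((wser_isNSer _ _).comm _ _)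

theorem resP_lcs_fin (p : ℕ) [hp : Fact p.Prime] (Y : Type) [Finite Y] (n : ℕ) :
    ResP p ((⊤ : Subgroup (FreeGroup Y)).lowerCentralSeries n) := by
  rw [← wser_eq_lcs]
  exact resP_wser p (n + 1) n 1 (by omega) le_rfl Y (fun _ => 1) (fun _ => le_rfl)

lemma map_lcs_le {G H : Type*} [Group G] [Group H] (f : G →* H) (n : ℕ) (g : G)
    (hg : g ∈ (⊤ : Subgroup G).lowerCentralSeries n) :
    f g ∈ (⊤ : Subgroup H).lowerCentralSeries n := by
  have h1 : ((⊤ : Subgroup G).lowerCentralSeries n).map f ≤
      (⊤ : Subgroup H).lowerCentralSeries n := by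
    rw [Subgroup.map_lowerCentralSeries]
    exact Subgroup.lowerCentralSeries_mono n le_top
  exact h1 (mem_map_of_mem _ hg)

/-- Free nilpotent groups of arbitrary rank are residually finite `p`-groups. -/
theorem resP_lcs (p : ℕ) [hp : Fact p.Prime] (α : Type*) (n : ℕ) :
    ResP p ((⊤ : Subgroup (FreeGroup α)).lowerCentralSeries n) := by
  classical
  intro g hg
  have hsupp : ∀ g : FreeGroup α, ∃ s : Finset α, g ∈ closure (FreeGroup.of '' (s : Set α)) := by
    intro g
    induction g using FreeGroup.induction_on with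
    | C1 => exact ⟨∅, one_mem _⟩
    | of y => exact ⟨{y}, subset_closure ⟨y, by simp, rfl⟩⟩
    | inv_of y ih =>
      obtain ⟨s, hs⟩ := ih
      exact ⟨s, inv_mem hs⟩
    | mul g h ihg ihh =>
      obtain ⟨s, hs⟩ := ihg
      obtain ⟨t, ht⟩ := ihh
      refine ⟨s ∪ t, mul_mem ?_ ?_⟩
      · exact closure_mono (Set.image_mono (by simp)) hs
      · exact closure_mono (Set.image_mono (by simp)) ht
  obtain ⟨s, hs⟩ := hsupp g
  let e : s ≃ Fin s.card := s.equivFin
  let f : Fin s.card → α := fun i => (e.symm i).1
  let ρ : FreeGroup α →* FreeGroup (Fin s.card) :=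
    FreeGroup.lift fun a => if h : a ∈ s then FreeGroup.of (e ⟨a, h⟩) else 1
  have hρ : FreeGroup.map f (ρ g) = g := by
    have h1 : closure (FreeGroup.of '' (s : Set α)) ≤
        MonoidHom.eqLocus ((FreeGroup.map f).comp ρ) (MonoidHom.id _) := by
      rw [closure_le]
      rintro _ ⟨a, ha, rfl⟩
      change FreeGroup.map f (ρ (FreeGroup.of a)) = FreeGroup.of a
      have ha' : a ∈ s := ha
      simp [ρ, ha', f]
    exact h1 hs
  have hg' : ρ g ∉ (⊤ : Subgroup (FreeGroup (Fin s.card))).lowerCentralSeries n := by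
    intro h
    apply hg
    rw [← hρ]
    exact map_lcs_le _ _ _ h
  obtain ⟨E, iE, fE, φ, hE, hker, hne⟩ := resP_lcs_fin p (Fin s.card) n (ρ g) hg'
  refine ⟨E, iE, fE, φ.comp ρ, hE, ?_, hne⟩
  intro u hu
  exact hker (map_lcs_le ρ n u hu)

end Pool.Agent.Lib.MP_f3dc04_al
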