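import Mathlib

/-!
Integer cycles of a Cayley graph and gradients of functions.
-/

namespace Pool.Agent.Lib.MP_f3dc04_al

open Finsupp

universe u v w

variable {Γ : Type u} [Group Γ] {ι : Type v} (S : ι → Γ)

/-- The boundary map of the Cayley graph. -/
noncomputable def bd : (Γ × ι →₀ ℤ) →+ (Γ →₀ ℤ) :=
  Finsupp.liftAddHom fun e => (Finsupp.singleAddHom e.1) - (Finsupp.singleAddHom ((S e.2)⁻¹ * e.1))

lemma bd_single (x : Γ) (i : ι) (n : ℤ) :
    bd S (single (x, i) n) = single x n - single ((S i)⁻¹ * x) n := by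
  simp [bd]

/-- The pairing of an integer chain with a function. -/
noncomputable def pair {X : Type w} {A : Type*} [AddCommGroup A] (z : X → A) : (X →₀ ℤ) →+ A :=
  Finsupp.liftAddHom fun e => (zmultiplesHom A (z e))

lemma pair_single {X : Type w} {A : Type*} [AddCommGroup A] (z : X → A) (e : X) (n : ℤ) :
    pair z (single e n) = n • z e := by
  simp [pair]

/-- The pairing with a gradient. -/
lemma pair_grad {A : Type*} [AddCommGroup A] (f : Γ → A) (z : Γ × ι → A)
    (hz : ∀ x i, z (x, i) = f x - f ((S i)⁻¹ * x)) (e : Γ × ι →₀ ℤ) :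
    pair z e = pair f (bd S e) := by
  suffices h : pair z = (pair f).comp (bd S) from DFunLike.congr_fun h e
  apply Finsupp.addHom_ext
  rintro ⟨x, i⟩ n
  rw [pair_single, AddMonoidHom.comp_apply, bd_single, map_sub, pair_single, pair_single, hz,
    smul_sub]

/-- A function on the edges which vanishes on all cycles is a gradient. -/
lemma exists_grad (hS : Subgroup.closure (Set.range S) = ⊤) {A : Type*} [AddCommGroup A]
    (z : Γ × ι → A) (hz : ∀ e : Γ × ι →₀ ℤ, bd S e = 0 → pair z e = 0) :
    ∃ f : Γ → A, ∀ x i, z (x, i) = f x - f ((S i)⁻¹ * x) := by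
  have key : ∀ g : Γ, ∀ x : Γ, ∃ e : Γ × ι →₀ ℤ, bd S e = single (g * x) 1 - single x 1 := by
    intro g
    have hg : g ∈ Subgroup.closure (Set.range S) := by rw [hS]; trivial
    induction hg using Subgroup.closure_induction with
    | mem g hg =>
      obtain ⟨i, rfl⟩ := hg
      intro x
      refine ⟨single (S i * x, i) 1, ?_⟩
      rw [bd_single, inv_mul_cancel_left]
    | one =>
      intro x
      exact ⟨0, by simp⟩
    | mul g h _ _ ihg ihh =>
      intro x
      obtain ⟨e₁, h₁⟩ := ihg (h * x)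
      obtain ⟨e₂, h₂⟩ := ihh x
      refine ⟨e₁ + e₂, ?_⟩
      rw [map_add, h₁, h₂, mul_assoc]
      abel
    | inv g _ ihg =>
      intro x
      obtain ⟨e, he⟩ := ihg (g⁻¹ * x)
      refine ⟨-e, ?_⟩
      rw [map_neg, he, mul_inv_cancel_left]
      abel
  choose w hw using fun g : Γ => key g 1
  refine ⟨fun x => pair z (w x), ?_⟩
  intro x i
  have h1 : pair z (w x - w ((S i)⁻¹ * x) - single (x, i) 1) = 0 := by
    apply hz
    rw [map_sub, map_sub, hw, hw, bd_single, mul_one, mul_one]
    abel
  rw [map_sub, map_sub, pair_single, one_smul] at h1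
  exact (sub_eq_zero.1 h1).symm

end Pool.Agent.Lib.MP_f3dc04_al
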