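import Mathlib

/-!
Counting solutions of integer linear systems modulo prime powers.
-/

namespace Pool.Agent.Lib.MP_f3dc04_al

/-- A finitely generated abelian group is free plus finite. -/
lemma fg_split (M : Type*) [AddCommGroup M] [AddGroup.FG M] :
    ∃ (n : ℕ) (T : Type) (_ : AddCommGroup T) (_ : Finite T), Nonempty (M ≃+ (Fin n → ℤ) × T) := by
  obtain ⟨n, ι, fι, p, hp, e, ⟨f⟩⟩ := AddCommGroup.equiv_free_prod_directSum_zmod M
  classical
  have : ∀ i, NeZero (p i ^ e i) := fun i => ⟨pow_ne_zero _ (hp i).ne_zero⟩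
  exact ⟨n, ∀ i, ZMod (p i ^ e i), inferInstance, inferInstance,
    ⟨f.trans (AddEquiv.prodCongr Finsupp.addEquivFunOnFinite (DirectSum.addEquivProd _))⟩⟩

/-- The solutions of an integer linear system. -/
def solSet {m : Type*} [Fintype m] (C : Set (m → ℤ)) (A : Type*) [AddCommGroup A] :
    AddSubgroup (m → A) where
  carrier := {y | ∀ c ∈ C, ∑ i, c i • y i = 0}
  zero_mem' := by
    intro c _
    simp
  add_mem' := by
    intro a b ha hb c hc
    simp only [Pi.add_apply, smul_add, Finset.sum_add_distrib]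
    rw [ha c hc, hb c hc, add_zero]
  neg_mem' := by
    intro a ha c hc
    simp only [Pi.neg_apply, smul_neg, Finset.sum_neg_distrib]
    rw [ha c hc, neg_zero]

lemma mem_solSet {m : Type*} [Fintype m] {C : Set (m → ℤ)} {A : Type*} [AddCommGroup A]
    {y : m → A} : y ∈ solSet C A ↔ ∀ c ∈ C, ∑ i, c i • y i = 0 := Iff.rfl

/-- evaluation homomorphism -/
def evalHom {m : Type*} [Fintype m] {A : Type*} [AddCommGroup A] (y : m → A) : (m → ℤ) →+ A where
  toFun c := ∑ i, c i • y i
  map_zero' := by simp
  map_add' := by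
    intro a b
    simp only [Pi.add_apply, add_smul, Finset.sum_add_distrib]

lemma evalHom_single {m : Type*} [Fintype m] [DecidableEq m] {A : Type*} [AddCommGroup A]
    (y : m → A) (i : m) : evalHom y (Pi.single i 1) = y i := by
  simp only [evalHom, AddMonoidHom.coe_mk, ZeroHom.coe_mk]
  rw [Finset.sum_eq_single i]
  · simp
  · intro b _ hb
    simp [Pi.single_eq_of_ne hb]
  · intro h; exact absurd (Finset.mem_univ _) h

/-- The number of homomorphisms from a finite group to a cyclic group is bounded. -/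
lemma card_hom_le (T : Type*) [AddCommGroup T] [Finite T] (N : ℕ) [NeZero N] :
    Nat.card (T →+ ZMod N) ≤ Nat.card T ^ Nat.card T := by
  classical
  have : Fintype T := Fintype.ofFinite T
  let D : Finset (ZMod N) := Finset.univ.filter fun a => Nat.card T • a = 0
  have hD : D.card ≤ Nat.card T := IsAddCyclic.card_nsmul_eq_zero_le Nat.card_pos
  let F : (T →+ ZMod N) → (T → D) := fun φ t => ⟨φ t, by
    simp only [D, Finset.mem_filter, Finset.mem_univ, true_and]
    rw [← map_nsmul, card_nsmul_eq_zero', map_zero]⟩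
  have hF : Function.Injective F := by
    intro φ ψ h
    ext t
    exact congrArg Subtype.val (congrFun h t)
  calc Nat.card (T →+ ZMod N) ≤ Nat.card (T → D) := Nat.card_le_card_of_injective F hF
    _ = D.card ^ Nat.card T := by
      rw [Nat.card_fun]
      simp
    _ ≤ Nat.card T ^ Nat.card T := Nat.pow_le_pow_left hD _

/-- The counting lemma. -/
theorem count_dim {m : Type*} [Fintype m] (C : Set (m → ℤ)) (p : ℕ) [hp : Fact p.Prime] (k : ℕ)
    (h : ∀ j : ℕ, p ^ (j * k) ≤ Nat.card (solSet C (ZMod (p ^ j)))) :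
    ∃ v u : Fin k → (m → ℤ), (∀ i, v i ∈ solSet C ℤ) ∧
      ∀ i i', ∑ a, v i a * u i' a = if i = i' then 1 else 0 := by
  classical
  let Cl : AddSubgroup (m → ℤ) := AddSubgroup.closure C
  have : AddGroup.FG (m → ℤ) := by
    rw [← Module.Finite.iff_addGroup_fg]
    infer_instance
  have : AddGroup.FG ((m → ℤ) ⧸ Cl) := inferInstance
  obtain ⟨n, T, _, _, ⟨θ⟩⟩ := fg_split ((m → ℤ) ⧸ Cl)
  let mk : (m → ℤ) →+ (m → ℤ) ⧸ Cl := QuotientAddGroup.mk' Cl
  have hmk : Function.Surjective mk := QuotientAddGroup.mk'_surjective Cl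
  -- the bound
  have hb : ∀ j : ℕ, Nat.card (solSet C (ZMod (p ^ j))) ≤
      p ^ (j * n) * Nat.card T ^ Nat.card T := by
    intro j
    have : NeZero (p ^ j) := ⟨pow_ne_zero _ hp.out.ne_zero⟩
    let A := ZMod (p ^ j)
    let L : solSet C A → ((m → ℤ) ⧸ Cl →+ A) := fun y => QuotientAddGroup.lift Cl (evalHom y.1) (by
      rw [AddSubgroup.closure_le]
      intro c hc
      exact y.2 c hc)
    have hL : ∀ y c, L y (mk c) = evalHom y.1 c := fun y c => rfl
    let F : solSet C A → (Fin n → A) × (T →+ A) := fun y =>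
      (fun i => L y (θ.symm (Pi.single i 1, 0)),
        ((L y).comp θ.symm.toAddMonoidHom).comp (AddMonoidHom.inr _ _))
    have hF : Function.Injective F := by
      intro y z hyz
      have h1 : ∀ i, L y (θ.symm (Pi.single i 1, 0)) = L z (θ.symm (Pi.single i 1, 0)) :=
        fun i => congrFun (congrArg Prod.fst hyz) i
      have h2 : ∀ t : T, L y (θ.symm (0, t)) = L z (θ.symm (0, t)) :=
        fun t => DFunLike.congr_fun (congrArg Prod.snd hyz) t
      have h3 : ∀ w : Fin n → ℤ, L y (θ.symm (w, 0)) = L z (θ.symm (w, 0)) := by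
        intro w
        have : ((L y).comp θ.symm.toAddMonoidHom).comp (AddMonoidHom.inl (Fin n → ℤ) T) =
            ((L z).comp θ.symm.toAddMonoidHom).comp (AddMonoidHom.inl (Fin n → ℤ) T) := by
          apply AddMonoidHom.functions_ext
          intro i a
          have e1 : (Pi.single i a : Fin n → ℤ) = a • Pi.single i 1 := by
            rw [← Pi.single_smul]; simp
          rw [e1, map_zsmul, map_zsmul]
          congr 1
          exact h1 i
        exact DFunLike.congr_fun this w
      have h4 : L y = L z := by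
        apply DFunLike.ext
        intro x
        obtain ⟨⟨w, t⟩, rfl⟩ := θ.symm.surjective x
        have e2 : ((w, t) : (Fin n → ℤ) × T) = (w, 0) + (0, t) := by simp
        rw [e2, map_add, map_add, map_add, h2, h3]
      apply Subtype.ext
      funext i
      have h5 := hL y (Pi.single i 1)
      have h6 := hL z (Pi.single i 1)
      rw [evalHom_single] at h5 h6
      rw [← h5, ← h6, h4]
    have hfin : Finite (T →+ A) := Finite.of_injective (fun φ : T →+ A => (φ : T → A))
      DFunLike.coe_injective
    calc Nat.card (solSet C A) ≤ Nat.card ((Fin n → A) × (T →+ A)) :=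
          Nat.card_le_card_of_injective F hF
      _ = p ^ (j * n) * Nat.card (T →+ A) := by
          rw [Nat.card_prod, Nat.card_fun, Nat.card_zmod, pow_mul]
          simp
      _ ≤ _ := Nat.mul_le_mul_left _ (card_hom_le T (p ^ j))
  -- the rank
  have hkn : k ≤ n := by
    by_contra hcon
    push Not at hcon
    set B := Nat.card T ^ Nat.card T with hB
    have h1 := (h B).trans (hb B)
    have h2 : p ^ (B * n) * p ^ B ≤ p ^ (B * k) := by
      rw [← pow_add]
      apply Nat.pow_le_pow_right hp.out.pos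
      have : n + 1 ≤ k := hcon
      calc B * n + B = B * (n + 1) := by ring
        _ ≤ B * k := Nat.mul_le_mul_left _ this
    have h3 : p ^ (B * n) * p ^ B ≤ p ^ (B * n) * B := h2.trans h1
    have h4 : p ^ B ≤ B := Nat.le_of_mul_le_mul_left h3 (pow_pos hp.out.pos _)
    exact absurd h4 (not_le.2 (Nat.lt_pow_self hp.out.one_lt))
  let φ : Fin n → ((m → ℤ) →+ ℤ) := fun i =>
    (((Pi.evalAddMonoidHom (fun _ : Fin n => ℤ) i).comp (AddMonoidHom.fst _ _)).comp
      θ.toAddMonoidHom).comp mk
  choose u hu using fun i : Fin n => hmk (θ.symm (Pi.single i 1, 0))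
  have hφ : ∀ i i', φ i (u i') = if i = i' then 1 else 0 := by
    intro i i'
    change (θ (mk (u i'))).1 i = _
    rw [hu, AddEquiv.apply_symm_apply]
    simp [Pi.single_apply]
  have hφC : ∀ i, ∀ c ∈ C, φ i c = 0 := by
    intro i c hc
    change (θ (mk c)).1 i = _
    have : mk c = 0 := (QuotientAddGroup.eq_zero_iff c).2 (AddSubgroup.subset_closure hc)
    rw [this, map_zero]
    rfl
  have hφs : ∀ i (c : m → ℤ), φ i c = ∑ a, c a * φ i (Pi.single a 1) := by
    intro i c
    have h1 : c = ∑ a, c a • (Pi.single a 1 : m → ℤ) := by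
      funext b
      rw [Finset.sum_apply, Finset.sum_eq_single b]
      · simp
      · intro a _ ha
        simp [Pi.single_eq_of_ne ha.symm]
      · intro h; exact absurd (Finset.mem_univ _) h
    conv_lhs => rw [h1]
    rw [map_sum]
    refine Finset.sum_congr rfl fun a _ => ?_
    rw [map_zsmul, smul_eq_mul]
  refine ⟨fun i a => φ (Fin.castLE hkn i) (Pi.single a 1), fun i => u (Fin.castLE hkn i), ?_, ?_⟩
  · intro i c hc
    have := hφC (Fin.castLE hkn i) c hc
    rw [hφs] at this
    simpa using this
  · intro i i'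
    have h1 := hφ (Fin.castLE hkn i) (Fin.castLE hkn i')
    rw [hφs] at h1
    have h2 : (Fin.castLE hkn i = Fin.castLE hkn i') ↔ i = i' := by
      rw [Fin.ext_iff, Fin.ext_iff]; simp
    simp only [h2] at h1
    rw [← h1]
    exact Finset.sum_congr rfl fun a _ => mul_comm _ _

end Pool.Agent.Lib.MP_f3dc04_al
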