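import Pool.Agent.Lib.MP_f3dc04_al.WSeries

/-!
Elimination of a letter of minimal weight.
-/

namespace Pool.Agent.Lib.MP_f3dc04_al

open Subgroup
open scoped commutatorElement

/-- `G` is residually (finite `p`-group) modulo `K`. -/
def ResP (p : ℕ) {G : Type*} [Group G] (K : Subgroup G) : Prop :=
  ∀ g, g ∉ K → ∃ (E : Type) (_ : Group E) (_ : Finite E) (φ : G →* E),
    IsPGroup p E ∧ K ≤ φ.ker ∧ φ g ≠ 1

section elim

variable {Y : Type} (wt : Y → ℕ) (n w : ℕ) (x : Y)

/-- the new alphabet -/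
abbrev NY {Y : Type} (x : Y) (n : ℕ) : Type := {y : Y // y ≠ x} × Fin n

/-- the new weights -/
def nwt (a : NY x n) : ℕ := wt a.1 + a.2.val * w

/-- the automorphism induced by conjugation with `x` -/
def tau : FreeGroup (NY x n) →* FreeGroup (NY x n) :=
  FreeGroup.lift fun a => if h : a.2.val + 1 < n then
    FreeGroup.of a * FreeGroup.of (a.1, ⟨a.2.val + 1, h⟩) else FreeGroup.of a

/-- the filtration of the new free group -/
abbrev ngam (k : ℕ) : Subgroup (FreeGroup (NY x n)) := wser FreeGroup.of (nwt wt n w x) k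

/-- the filtration of the old free group -/
abbrev gam (k : ℕ) : Subgroup (FreeGroup Y) := wser FreeGroup.of wt k

lemma ngam_w (hw : ∀ y, w ≤ wt y) : ngam wt n w x w = ⊤ := by
  apply wser_eq_top (closure_range_of _)
  intro a
  exact (hw a.1).trans (Nat.le_add_right _ _)

lemma tau_mem (hw : ∀ y, w ≤ wt y) (k : ℕ) (u : FreeGroup (NY x n))
    (hu : u ∈ ngam wt n w x k) : u⁻¹ * tau n x u ∈ ngam wt n w x (k + w) := by
  obtain ⟨t, ht, ht'⟩ := unip_isNSer (wser_isNSer (FreeGroup.of) (nwt wt n w x)) (tau n x) w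
    (ngam_w wt n w x hw)
  refine ((ht' k u).1 (wser_le ht ?_ k hu)).2
  intro a
  rw [ht']
  refine ⟨gen_mem_wser _ _ a, ?_⟩
  unfold tau
  rw [FreeGroup.lift_apply_of]
  split_ifs with h
  · rw [inv_mul_cancel_left]
    have h1 := gen_mem_wser (FreeGroup.of : NY x n → _) (nwt wt n w x) (a.1, ⟨a.2.val + 1, h⟩)
    have h2 : nwt wt n w x (a.1, ⟨a.2.val + 1, h⟩) = nwt wt n w x a + w := by
      unfold nwt; ring
    rwa [h2] at h1
  · rw [inv_mul_cancel]; exact one_mem _

/-- iterated commutators with `x` -/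
def cc (y : Y) : ℕ → FreeGroup Y
  | 0 => FreeGroup.of y
  | j + 1 => (cc y j)⁻¹ * (FreeGroup.of x * cc y j * (FreeGroup.of x)⁻¹)

/-- the comparison map from the new free group to the old one -/
def theta : FreeGroup (NY x n) →* FreeGroup Y := FreeGroup.lift fun a => cc x a.1.1 a.2.val

lemma theta_of (a : NY x n) : theta n x (FreeGroup.of a) = cc x a.1.1 a.2.val := by
  unfold theta; rw [FreeGroup.lift_apply_of]

lemma cc_mem (hx : wt x = w) (y : Y) (j : ℕ) : cc x y j ∈ gam wt (wt y + j * w) := by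
  induction j with
  | zero => simpa [cc] using gen_mem_wser (FreeGroup.of) wt y
  | succ j ih =>
    have h1 : cc x y (j + 1) = ⁅(cc x y j)⁻¹, FreeGroup.of x⁆ := by
      rw [commutatorElement_def, cc]; group
    have h2 : wt y + (j + 1) * w = (wt y + j * w) + wt x := by rw [hx]; ring
    rw [h1, h2]
    exact (wser_isNSer FreeGroup.of wt).comm _ _
      (commutator_mem_commutator (inv_mem ih) (gen_mem_wser _ _ x))

lemma theta_mem (hx : wt x = w) (k : ℕ) (u : FreeGroup (NY x n)) (hu : u ∈ ngam wt n w x k) :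
    theta n x u ∈ gam wt k := by
  have h := (wser_isNSer (FreeGroup.of) wt).comap (theta n x)
  refine wser_le h ?_ k hu
  intro a
  rw [mem_comap, theta_of]
  exact cc_mem wt w x hx a.1.1 a.2.val

lemma exists_theta (hw1 : 1 ≤ w) (hx : wt x = w) (g : FreeGroup Y) :
    ∃ k : ℤ, ∃ h : FreeGroup (NY x n), ∃ γ ∈ gam wt n,
      g * (FreeGroup.of x) ^ k = theta n x h * γ := by
  set X : FreeGroup Y := FreeGroup.of x with hX
  let H : Subgroup (FreeGroup Y) := (theta n x).range ⊔ gam wt n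
  have hnor : (gam wt n).Normal := inferInstance
  have hmemH : ∀ z, z ∈ H ↔ ∃ h, ∃ γ ∈ gam wt n, z = theta n x h * γ := by
    intro z
    change z ∈ (theta n x).range ⊔ gam wt n ↔ _
    rw [Subgroup.mem_sup_of_normal_right]
    constructor
    · rintro ⟨_, ⟨h, rfl⟩, γ, hγ, rfl⟩
      exact ⟨h, γ, hγ, rfl⟩
    · rintro ⟨h, γ, hγ, rfl⟩
      exact ⟨_, ⟨h, rfl⟩, γ, hγ, rfl⟩
  have hccH : ∀ y : Y, y ≠ x → ∀ j, cc x y j ∈ H := by
    intro y hy j
    by_cases hj : j < n
    · refine mem_sup_left ⟨FreeGroup.of (⟨y, hy⟩, ⟨j, hj⟩), ?_⟩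
      rw [theta_of]
    · refine mem_sup_right ?_
      refine (wser_isNSer (FreeGroup.of) wt).anti ?_ (cc_mem wt w x hx y j)
      push Not at hj
      calc n ≤ j := hj
        _ = j * 1 := (mul_one j).symm
        _ ≤ j * w := Nat.mul_le_mul_left j hw1
        _ ≤ wt y + j * w := Nat.le_add_left _ _
  have hconjx : ∀ y : Y, y ≠ x → ∀ j, X * cc x y j * X⁻¹ ∈ H := by
    intro y hy j
    have : X * cc x y j * X⁻¹ = cc x y j * cc x y (j + 1) := by
      rw [show cc x y (j + 1) = (cc x y j)⁻¹ * (X * cc x y j * X⁻¹) from rfl]; group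
    rw [this]
    exact mul_mem (hccH y hy j) (hccH y hy (j + 1))
  have hconjx' : ∀ y : Y, y ≠ x → ∀ i j, n ≤ j + i → X⁻¹ * cc x y j * X ∈ H := by
    intro y hy i
    induction i with
    | zero =>
      intro j hj
      have h1 : cc x y j ∈ gam wt n := by
        refine (wser_isNSer (FreeGroup.of) wt).anti ?_ (cc_mem wt w x hx y j)
        calc n ≤ j := by omega
          _ = j * 1 := (mul_one j).symm
          _ ≤ j * w := Nat.mul_le_mul_left j hw1
          _ ≤ wt y + j * w := Nat.le_add_left _ _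
      have h2 := hnor.conj_mem _ h1 X⁻¹
      rw [inv_inv] at h2
      exact mem_sup_right h2
    | succ i ih =>
      intro j hj
      have h1 := ih (j + 1) (by omega)
      have : X⁻¹ * cc x y j * X = cc x y j * (X⁻¹ * cc x y (j + 1) * X)⁻¹ := by
        rw [show cc x y (j + 1) = (cc x y j)⁻¹ * (X * cc x y j * X⁻¹) from rfl]; group
      rw [this]
      exact mul_mem (hccH y hy j) (inv_mem h1)
  have hcx : ∀ h ∈ H, X * h * X⁻¹ ∈ H := by
    have : H ≤ H.comap (MulAut.conj X).toMonoidHom := by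
      refine sup_le ?_ ?_
      · apply FreeGroup.range_lift_le
        rintro _ ⟨a, rfl⟩
        exact hconjx a.1.1 a.1.2 a.2.val
      · intro z hz
        exact mem_sup_right (hnor.conj_mem _ hz X)
    intro h hh
    exact this hh
  have hcx' : ∀ h ∈ H, X⁻¹ * h * X ∈ H := by
    have : H ≤ H.comap (MulAut.conj X⁻¹).toMonoidHom := by
      refine sup_le ?_ ?_
      · apply FreeGroup.range_lift_le
        rintro _ ⟨a, rfl⟩
        have := hconjx' a.1.1 a.1.2 n a.2.val (by omega)
        simpa [MulAut.conj_apply] using this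
      · intro z hz
        exact mem_sup_right (hnor.conj_mem _ hz X⁻¹)
    intro h hh
    have := this hh
    simpa [MulAut.conj_apply] using this
  have hcz : ∀ k : ℤ, ∀ h ∈ H, X ^ k * h * X ^ (-k) ∈ H := by
    intro k
    induction k with
    | zero => intro h hh; simpa using hh
    | succ k ih =>
      intro h hh
      have := hcx _ (ih h hh)
      have e : X ^ ((k : ℤ) + 1) * h * X ^ (-((k : ℤ) + 1)) =
          X * (X ^ (k : ℤ) * h * X ^ (-(k : ℤ))) * X⁻¹ := by
        rw [zpow_add, neg_add, zpow_add, zpow_one, zpow_neg_one]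
        have : X ^ (k : ℤ) * X = X * X ^ (k : ℤ) := (Commute.zpow_self X k).eq
        rw [this]; group
      rw [e]; exact this
    | pred k ih =>
      intro h hh
      have := hcx' _ (ih h hh)
      have e : X ^ (-(k : ℤ) - 1) * h * X ^ (-(-(k : ℤ) - 1)) =
          X⁻¹ * (X ^ (-(k : ℤ)) * h * X ^ (-(-(k : ℤ)))) * X := by
        group
      rw [e]; exact this
  have main : ∀ g : FreeGroup Y, ∃ k : ℤ, g * X ^ k ∈ H := by
    intro g
    induction g using FreeGroup.induction_on with
    | C1 => exact ⟨0, by simp⟩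
    | of y =>
      by_cases hy : y = x
      · refine ⟨-1, ?_⟩
        have : FreeGroup.of y * X ^ (-1 : ℤ) = 1 := by
          rw [hX, hy, zpow_neg_one, mul_inv_cancel]
        rw [this]
        exact one_mem H
      · exact ⟨0, by simpa [cc] using hccH y hy 0⟩
    | inv_of y ih =>
      obtain ⟨k, hk⟩ := ih
      refine ⟨-k, ?_⟩
      have h1 := hcz (k) _ (inv_mem hk)
      have e : X ^ k * (FreeGroup.of y * X ^ k)⁻¹ * X ^ (-k) = (FreeGroup.of y)⁻¹ * X ^ (-k) := by
        group
      rw [e] at h1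
      exact h1
    | mul g h ihg ihh =>
      obtain ⟨k, hk⟩ := ihg
      obtain ⟨l, hl⟩ := ihh
      refine ⟨l + k, ?_⟩
      have h1 := mul_mem hk (hcz (-k) _ hl)
      have e : g * X ^ k * (X ^ (-k) * (h * X ^ l) * X ^ (-(-k))) = g * h * X ^ (l + k) := by
        rw [zpow_add]; group
      rw [e] at h1
      exact h1
  obtain ⟨k, hk⟩ := main g
  obtain ⟨h, γ, hγ, e⟩ := (hmemH _).1 hk
  exact ⟨k, h, γ, hγ, e⟩

/-- The filtration of a semidirect product by a unipotent action of a commutative group. -/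
lemma sd_series {Q C E : Type*} [Group Q] [Group C] [Group E] (inl : Q →* E) (inr : C →* E)
    (act : C → Q → Q) (hdec : ∀ a : E, ∃ (u : Q) (c : C), a = inl u * inr c)
    (hinr : ∀ (c : C) (u : Q), inr c * inl u * (inr c)⁻¹ = inl (act c u))
    (hC : ∀ c d : C, c * d = d * c) {s : ℕ → Subgroup Q} (hs : IsNSer s) (w : ℕ) (hsw : s w = ⊤)
    (hunip : ∀ (c : C) (k : ℕ) (u : Q), u ∈ s k → u⁻¹ * act c u ∈ s (k + w)) :
    IsNSer (fun k => if k ≤ w then (⊤ : Subgroup E) else (s k).map inl) := by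
  have key : ∀ (a : E) (j : ℕ) (v : Q), v ∈ s j → ⁅a, inl v⁆ ∈ (s (j + w)).map inl := by
    intro a j v hv
    obtain ⟨u, c, rfl⟩ := hdec a
    have h1 : ⁅inl u * inr c, inl v⁆ = inl (u * (act c v) * u⁻¹ * v⁻¹) := by
      rw [commutatorElement_def, map_mul, map_mul, map_mul, ← hinr, map_inv, map_inv]; group
    rw [h1]
    refine mem_map_of_mem _ ?_
    have h2 : u * (act c v) * u⁻¹ * v⁻¹ =
        (u * v * (v⁻¹ * act c v) * v⁻¹ * u⁻¹) * ⁅u, v⁆ := by
      rw [commutatorElement_def]; group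
    rw [h2]
    have h3 := hunip c j v hv
    refine mul_mem ?_ ?_
    · have h4 := (hs.normal (j + w)).conj_mem _ h3 (u * v)
      have h5 : u * v * (v⁻¹ * act c v) * v⁻¹ * u⁻¹ =
          u * v * (v⁻¹ * act c v) * (u * v)⁻¹ := by group
      rw [h5]; exact h4
    · have hu : u ∈ s w := by rw [hsw]; trivial
      have := hs.comm w j (commutator_mem_commutator hu hv)
      rwa [add_comm] at this
  have hnorm : ∀ k, ∀ a : E, ∀ b ∈ (s k).map inl, a * b * a⁻¹ ∈ (s k).map inl := by
    rintro k a _ ⟨v, hv, rfl⟩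
    have h1 : a * inl v * a⁻¹ = ⁅a, inl v⁆ * inl v := by rw [commutatorElement_def]; group
    rw [h1]
    exact mul_mem (map_mono (hs.anti (Nat.le_add_right _ _)) (key a k v hv)) (mem_map_of_mem _ hv)
  have key2 : ∀ a b : E, ⁅a, b⁆ ∈ (s (w + w)).map inl := by
    intro a b
    have hall : ∀ v : Q, v ∈ s w := fun v => by rw [hsw]; trivial
    obtain ⟨v, c, rfl⟩ := hdec b
    obtain ⟨u, d, rfl⟩ := hdec a
    have h1 : ⁅inl u * inr d, inl v * inr c⁆ =
        ⁅inl u * inr d, inl v⁆ * (inl v * (inl u * ⁅inr d, inr c⁆ * (inl u)⁻¹ *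
          (⁅inr c, inl u⁆)⁻¹) * (inl v)⁻¹) := by
      simp only [commutatorElement_def]; group
    rw [h1]
    have h2 : ⁅inr d, inr c⁆ = 1 := by
      rw [← map_commutatorElement]
      have : ⁅d, c⁆ = 1 := by
        rw [commutatorElement_eq_one_iff_mul_comm]
        exact hC d c
      rw [this, map_one]
    rw [h2]
    refine mul_mem (key _ w v (hall v)) (hnorm _ _ _ ?_)
    have h3 : inl u * 1 * (inl u)⁻¹ * (⁅inr c, inl u⁆)⁻¹ = (⁅inr c, inl u⁆)⁻¹ := by group
    rw [h3]
    exact inv_mem (key _ w u (hall u))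
  refine ⟨?_, ?_, ?_⟩
  · intro a b hab
    by_cases ha : a ≤ w
    · simp only [if_pos ha]; exact le_top
    · have hb : ¬ b ≤ w := by omega
      simp only [if_neg ha, if_neg hb]
      exact map_mono (hs.anti hab)
  · simp only [Nat.zero_le, if_true]
  · intro i j
    rw [commutator_le]
    intro a ha b hb
    by_cases hij : i + j ≤ w
    · simp only [if_pos hij]; trivial
    simp only [if_neg hij]
    by_cases hi : i ≤ w
    · by_cases hj : j ≤ w
      · exact map_mono (hs.anti (by omega)) (key2 a b)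
      · simp only [if_neg hj] at hb
        obtain ⟨v, hv, rfl⟩ := hb
        exact map_mono (hs.anti (by omega)) (key a j v hv)
    · simp only [if_neg hi] at ha
      obtain ⟨u, hu, rfl⟩ := ha
      by_cases hj : j ≤ w
      · rw [← commutatorElement_inv]
        exact inv_mem (map_mono (hs.anti (by omega)) (key b i u hu))
      · simp only [if_neg hj] at hb
        obtain ⟨v, hv, rfl⟩ := hb
        rw [← map_commutatorElement]
        exact mem_map_of_mem _ (hs.comm i j (commutator_mem_commutator hu hv))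

/-- The extension of a detecting homomorphism of the new free group to the old one. -/
lemma exists_psi [Finite Y] (p : ℕ) [hp : Fact p.Prime] (hw1 : 1 ≤ w) (hwn : w < n)
    (hw : ∀ y, w ≤ wt y) (hx : wt x = w) (h : FreeGroup (NY x n))
    (E' : Type) [Group E'] [Finite E'] (hE' : IsPGroup p E')
    (φ' : FreeGroup (NY x n) →* E') (hφ' : ngam wt n w x n ≤ φ'.ker) (hh : φ' h ≠ 1) :
    ∃ (E : Type) (_ : Group E) (_ : Finite E) (Ψ : FreeGroup Y →* E),
      IsPGroup p E ∧ gam wt n ≤ Ψ.ker ∧ Ψ (theta n x h) ≠ 1 := by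
  classical
  let HH := {ψ : FreeGroup (NY x n) →* E' // ngam wt n w x n ≤ ψ.ker}
  have : Finite (FreeGroup (NY x n) →* E') := Finite.of_equiv _ (FreeGroup.lift (β := E') (α := NY x n))
  have : Finite HH := inferInstance
  let Ψ' : FreeGroup (NY x n) →* (HH → E') := MonoidHom.pi fun ψ => ψ.1
  let Q := FreeGroup (NY x n) ⧸ Ψ'.ker
  have : Finite Q := Finite.of_injective (QuotientGroup.kerLift Ψ') (QuotientGroup.kerLift_injective Ψ')
  let mk : FreeGroup (NY x n) →* Q := QuotientGroup.mk' Ψ'.ker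
  have hmk : Function.Surjective mk := QuotientGroup.mk'_surjective _
  have hmk1 : ∀ u, mk u = 1 ↔ ∀ ψ : HH, ψ.1 u = 1 := by
    intro u
    change ((u : FreeGroup (NY x n)) : FreeGroup (NY x n) ⧸ Ψ'.ker) = 1 ↔ _
    rw [QuotientGroup.eq_one_iff, MonoidHom.mem_ker, funext_iff]
    rfl
  -- the group `Q` has exponent dividing `p ^ m`
  obtain ⟨m, hm⟩ := (IsPGroup.iff_card).1 hE'
  have hQm : ∀ u : Q, u ^ p ^ m = 1 := by
    intro u
    obtain ⟨v, rfl⟩ := hmk u
    rw [← map_pow, hmk1]
    intro ψ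
    rw [map_pow, ← hm, pow_card_eq_one']
  have hQp : IsPGroup p Q := fun u => ⟨m, hQm u⟩
  -- the filtration of `Q`
  let s : ℕ → Subgroup Q := fun k => (ngam wt n w x k).map mk
  have hs : IsNSer s := (wser_isNSer _ _).map mk hmk
  have hsn : s n = ⊥ := by
    rw [eq_bot_iff]
    rintro _ ⟨u, hu, rfl⟩
    rw [mem_bot, hmk1]
    intro ψ
    exact ψ.2 hu
  have hsw : s w = ⊤ := by
    change (ngam wt n w x w).map mk = ⊤
    rw [ngam_w wt n w x hw, Subgroup.map_top_of_surjective mk hmk]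
  -- the automorphism of `Q`
  have hτn : ∀ k, ∀ u ∈ ngam wt n w x k, tau n x u ∈ ngam wt n w x k := by
    intro k u hu
    have h1 := tau_mem wt n w x hw k u hu
    have h2 : tau n x u = u * (u⁻¹ * tau n x u) := by group
    rw [h2]
    exact mul_mem hu ((wser_isNSer _ _).anti (Nat.le_add_right _ _) h1)
  have hker : Ψ'.ker ≤ Ψ'.ker.comap (tau n x) := by
    intro u hu
    rw [MonoidHom.mem_ker] at hu
    rw [mem_comap, MonoidHom.mem_ker]
    funext ψ
    have h1 := congrFun hu ⟨ψ.1.comp (tau n x), fun v hv => ψ.2 (hτn n v hv)⟩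
    exact h1
  let T : Monoid.End Q := QuotientGroup.map Ψ'.ker Ψ'.ker (tau n x) hker
  have hTmk : ∀ u, T (mk u) = mk (tau n x u) := fun u => rfl
  have hT : ∀ k, ∀ u ∈ s k, u⁻¹ * T u ∈ s (k + w) := by
    rintro k _ ⟨u, hu, rfl⟩
    rw [hTmk, ← map_inv, ← map_mul]
    exact mem_map_of_mem _ (tau_mem wt n w x hw k u hu)
  obtain ⟨e, he⟩ := unip_pow hs T hw1 hsn hT p hQm
  have hpe : 1 ≤ p ^ e := Nat.one_le_pow _ _ hp.out.pos
  have hT1 : ∀ u, (T ^ (p ^ e - 1)) (T u) = u := by
    intro u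
    have h1 : (T ^ (p ^ e - 1)) (T u) = (T ^ (p ^ e - 1) * T) u := rfl
    rw [h1, ← pow_succ, Nat.sub_add_cancel hpe, he]; rfl
  have hT2 : ∀ u, T ((T ^ (p ^ e - 1)) u) = u := by
    intro u
    have h1 : T ((T ^ (p ^ e - 1)) u) = (T * T ^ (p ^ e - 1)) u := rfl
    rw [h1, ← pow_succ', Nat.sub_add_cancel hpe, he]; rfl
  let T' : MulAut Q :=
    { toFun := T
      invFun := fun u => (T ^ (p ^ e - 1)) u
      left_inv := hT1
      right_inv := hT2
      map_mul' := T.map_mul }
  have hT'pow : ∀ (j : ℕ) (u : Q), (T' ^ j) u = (T ^ j) u := by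
    intro j
    induction j with
    | zero => intro u; rfl
    | succ j ih =>
      intro u
      rw [pow_succ', pow_succ']
      change T' ((T' ^ j) u) = T ((T ^ j) u)
      rw [ih]; rfl
  have hT'e : T' ^ p ^ e = 1 := by
    ext u
    rw [hT'pow, he]; rfl
  let C : Subgroup (MulAut Q) := zpowers T'
  have hCpow : ∀ c ∈ C, ∃ j : ℕ, c = T' ^ j := by
    intro c hc
    have : Finite (MulAut Q) := Finite.of_injective (fun f : MulAut Q => (f : Q → Q)) DFunLike.coe_injective
    obtain ⟨j, hj⟩ := (mem_powers_iff_mem_zpowers (x := T')).2 hc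
    exact ⟨j, hj.symm⟩
  have hCunip : ∀ c ∈ C, ∀ k, ∀ u ∈ s k, u⁻¹ * c u ∈ s (k + w) := by
    intro c hc k u hu
    obtain ⟨j, rfl⟩ := hCpow c hc
    rw [hT'pow]
    exact (pow_unip hs T hT j k u hu).1
  let E := Q ⋊[C.subtype] C
  have : Finite (MulAut Q) := Finite.of_injective (fun f : MulAut Q => (f : Q → Q)) DFunLike.coe_injective
  have : Finite E := Finite.of_equiv (Q × C) SemidirectProduct.equivProd.symm
  have hE : IsPGroup p E := by
    obtain ⟨a, ha⟩ := (IsPGroup.iff_card).1 hQp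
    have hc : Nat.card C ∣ p ^ e := by
      rw [Nat.card_zpowers]
      exact orderOf_dvd_of_pow_eq_one hT'e
    apply IsPGroup.of_card_dvd_pow (n := a + e)
    rw [SemidirectProduct.card, ha, pow_add]
    exact Nat.mul_dvd_mul_left _ hc
  have hn0 : 0 < n := by omega
  let Ψ : FreeGroup Y →* E := FreeGroup.lift fun y => if hy : y = x then
      SemidirectProduct.inr ⟨T', mem_zpowers T'⟩
    else SemidirectProduct.inl (mk (FreeGroup.of (⟨y, hy⟩, ⟨0, hn0⟩)))
  have hΨx : Ψ (FreeGroup.of x) = SemidirectProduct.inr ⟨T', mem_zpowers T'⟩ := by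
    simp [Ψ]
  have hΨy : ∀ (y : Y) (hy : y ≠ x), Ψ (FreeGroup.of y) =
      SemidirectProduct.inl (mk (FreeGroup.of (⟨y, hy⟩, ⟨0, hn0⟩))) := by
    intro y hy
    simp [Ψ, hy]
  have hconj : ∀ u : Q, (SemidirectProduct.inr ⟨T', mem_zpowers T'⟩ : E) *
      SemidirectProduct.inl u * (SemidirectProduct.inr ⟨T', mem_zpowers T'⟩ : E)⁻¹ =
      SemidirectProduct.inl (T u) := by
    intro u
    have := SemidirectProduct.inl_aut (φ := C.subtype) ⟨T', mem_zpowers T'⟩ u
    rw [map_inv] at this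
    exact this.symm
  have hΨcc : ∀ (y : Y) (hy : y ≠ x) (j : ℕ) (hj : j < n), Ψ (cc x y j) =
      SemidirectProduct.inl (mk (FreeGroup.of (⟨y, hy⟩, ⟨j, hj⟩))) := by
    intro y hy j
    induction j with
    | zero => intro hj; exact hΨy y hy
    | succ j ih =>
      intro hj
      have ih' := ih (by omega)
      rw [cc, map_mul, map_mul, map_mul, map_inv, map_inv, ih', hΨx, hconj, ← map_inv, ← map_mul,
        hTmk, ← map_inv, ← map_mul]
      congr 2
      unfold tau
      rw [FreeGroup.lift_apply_of, dif_pos hj, inv_mul_cancel_left]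
  have hΨtheta : ∀ u, Ψ (theta n x u) = SemidirectProduct.inl (mk u) := by
    intro u
    have : Ψ.comp (theta n x) = (SemidirectProduct.inl (φ := C.subtype)).comp mk := by
      apply FreeGroup.ext_hom
      rintro ⟨⟨y, hy⟩, ⟨j, hj⟩⟩
      rw [MonoidHom.comp_apply, theta_of, hΨcc y hy j hj]; rfl
    exact DFunLike.congr_fun this u
  -- the filtration on `E`
  let inl : Q →* E := SemidirectProduct.inl
  let inr : C →* E := SemidirectProduct.inr
  have hdec : ∀ a : E, ∃ (u : Q) (c : C), a = inl u * inr c :=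
    fun a => ⟨a.left, a.right, (SemidirectProduct.inl_left_mul_inr_right a).symm⟩
  have hinr : ∀ (c : C) (u : Q), inr c * inl u * (inr c)⁻¹ = inl ((c : MulAut Q) u) := by
    intro c u
    have := SemidirectProduct.inl_aut (φ := C.subtype) c u
    rw [map_inv] at this
    exact this.symm
  have hCcomm : ∀ c d : C, c * d = d * c := by
    rintro ⟨c, hc⟩ ⟨d, hd⟩
    obtain ⟨i, rfl⟩ := hCpow c hc
    obtain ⟨j, rfl⟩ := hCpow d hd
    apply Subtype.ext
    change T' ^ i * T' ^ j = T' ^ j * T' ^ i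
    rw [← pow_add, ← pow_add, add_comm]
  let EN : ℕ → Subgroup E := fun k => if k ≤ w then ⊤ else (s k).map inl
  have hEN : IsNSer EN := sd_series inl inr (fun c u => (c : MulAut Q) u) hdec hinr hCcomm hs w hsw
    (fun c k u hu => hCunip c c.2 k u hu)
  refine ⟨E, inferInstance, inferInstance, Ψ, hE, ?_, ?_⟩
  · have h1 : ∀ k, gam wt k ≤ (EN k).comap Ψ := by
      apply wser_le (hEN.comap Ψ)
      intro y
      rw [mem_comap]
      by_cases hy : y = x
      · have : wt y ≤ w := by rw [hy, hx]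
        simp only [EN, if_pos this]; trivial
      · by_cases hwy : wt y ≤ w
        · simp only [EN, if_pos hwy]; trivial
        · simp only [EN, if_neg hwy]
          rw [hΨy y hy]
          refine mem_map_of_mem _ (mem_map_of_mem _ ?_)
          have := gen_mem_wser (FreeGroup.of) (nwt wt n w x) (⟨y, hy⟩, ⟨0, hn0⟩)
          simpa [nwt] using this
    intro u hu
    have h2 := h1 n hu
    rw [mem_comap] at h2
    simp only [EN, if_neg (by omega : ¬ n ≤ w), hsn, Subgroup.map_bot, mem_bot] at h2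
    exact h2
  · rw [hΨtheta]
    intro hcon
    have h1 : mk h = 1 := by
      apply SemidirectProduct.inl_injective (φ := C.subtype)
      rw [hcon, map_one]
    rw [hmk1] at h1
    exact hh (h1 ⟨φ', hφ'⟩)

end elim

end Pool.Agent.Lib.MP_f3dc04_al
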