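import Pool.Agent.Lib.MP_f3dc04_al.L2

/-!
The space of square summable gradients which vanish on the edges with a given label.
-/

namespace Pool.Agent.Lib.MP_f3dc04_al

open scoped InnerProductSpace
open Finsupp

universe u v

variable {Γ : Type u} [Group Γ] {ι : Type v} (S : ι → Γ)

lemma sum_mapRange_eq_pair {X : Type*} (z : X → ℝ) (c : X →₀ ℤ) :
    ((c.mapRange (Int.castAddHom ℝ) (map_zero _)).sum fun x a => a * z x) = pair z c := by
  rw [sum_mapRange_index (by simp)]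
  induction c using Finsupp.induction_linear with
  | zero => simp
  | add f g hf hg =>
    rw [sum_add_index' (by simp) (by intros; simp [add_mul]), hf, hg, map_add]
  | single a b =>
    rw [sum_single_index (by simp), pair_single]
    simp

/-- The space of square summable gradients which vanish on the edges with a given label. -/
noncomputable def relZ (i₀ : ι) : Submodule ℝ (L2 (Γ × ι)) :=
  ((relB S i₀).map (toL2 (Γ × ι)))ᗮ

lemma mem_relZ {i₀ : ι} {v : L2 (Γ × ι)} :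
    v ∈ relZ S i₀ ↔ ∀ b ∈ relB S i₀, (b.sum fun x a => a * v x) = 0 := by
  rw [relZ, Submodule.mem_orthogonal]
  constructor
  · intro h b hb
    rw [← inner_toL2]
    exact h _ ⟨b, hb, rfl⟩
  · rintro h _ ⟨b, hb, rfl⟩
    rw [inner_toL2]
    exact h b hb

lemma mem_relZ_iff (hS : Subgroup.closure (Set.range S) = ⊤) {i₀ : ι} {v : L2 (Γ × ι)} :
    v ∈ relZ S i₀ ↔ (∃ f : Γ → ℝ, ∀ x i, v (x, i) = f x - f ((S i)⁻¹ * x)) ∧
      ∀ x, v (x, i₀) = 0 := by
  rw [mem_relZ]
  constructor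
  · intro h
    constructor
    · apply exists_grad S hS (fun e => v e)
      intro e he
      have := h _ (Submodule.subset_span (Or.inl ⟨e, he, rfl⟩))
      rwa [sum_mapRange_eq_pair] at this
    · intro x
      have := h _ (Submodule.subset_span (Or.inr ⟨x, rfl⟩))
      rwa [sum_single_index (by simp), one_mul] at this
  · rintro ⟨⟨f, hf⟩, h0⟩ b hb
    induction hb using Submodule.span_induction with
    | mem b hb =>
      rcases hb with ⟨c, hc, rfl⟩ | ⟨x, rfl⟩
      · rw [sum_mapRange_eq_pair, pair_grad S f _ hf, hc, map_zero]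
      · rw [sum_single_index (by simp), one_mul, h0]
    | zero => simp
    | add a b _ _ ha hb =>
      rw [sum_add_index' (by simp) (by intros; simp [add_mul]), ha, hb, add_zero]
    | smul c a _ ha =>
      rw [sum_smul_index (by simp)]
      simp only [mul_assoc]
      rw [← Finsupp.mul_sum, ha, mul_zero]

/-- The permutation of the edges given by a right translation. -/
def trP (ι : Type v) (g : Γ) : Γ × ι ≃ Γ × ι := Equiv.prodCongr (Equiv.mulRight g) (Equiv.refl ι)

lemma trP_apply (g x : Γ) (i : ι) : trP ι g (x, i) = (x * g, i) := rfl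

lemma permL2_mem (hS : Subgroup.closure (Set.range S) = ⊤) {i₀ : ι} (g : Γ) {v : L2 (Γ × ι)}
    (hv : v ∈ relZ S i₀) : permL2 (trP ι g) v ∈ relZ S i₀ := by
  rw [mem_relZ_iff S hS] at hv ⊢
  obtain ⟨⟨f, hf⟩, h0⟩ := hv
  constructor
  · refine ⟨fun x => f (x * g), fun x i => ?_⟩
    rw [permL2_apply, trP_apply, hf]
    simp only [mul_assoc]
  · intro x
    rw [permL2_apply, trP_apply, h0]

/-- The action of the group. -/
noncomputable def actZ (hS : Subgroup.closure (Set.range S) = ⊤) (i₀ : ι) (g : Γ) :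
    relZ S i₀ ≃ₗᵢ[ℝ] relZ S i₀ where
  toFun v := ⟨permL2 (trP ι g) v.1, permL2_mem S hS g v.2⟩
  invFun v := ⟨permL2 (trP ι g⁻¹) v.1, permL2_mem S hS g⁻¹ v.2⟩
  left_inv := by
    intro v
    apply Subtype.ext
    apply lp.ext
    funext x
    change v.1 (x.1 * g⁻¹ * g, x.2) = v.1 x
    rw [inv_mul_cancel_right]
  right_inv := by
    intro v
    apply Subtype.ext
    apply lp.ext
    funext x
    change v.1 (x.1 * g * g⁻¹, x.2) = v.1 x
    rw [mul_inv_cancel_right]
  map_add' := by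
    intro a b
    apply Subtype.ext
    exact map_add _ _ _
  map_smul' := by
    intro c a
    apply Subtype.ext
    exact map_smul _ _ _
  norm_map' := by
    intro v
    exact (permL2 (trP ι g)).norm_map v.1

lemma actZ_apply (hS : Subgroup.closure (Set.range S) = ⊤) (i₀ : ι) (g : Γ) (v : relZ S i₀)
    (x : Γ) (i : ι) : (actZ S hS i₀ g v).1 (x, i) = v.1 (x * g, i) := rfl

instance (i₀ : ι) : CompleteSpace (relZ S i₀) := by
  unfold relZ
  infer_instance

/-- The frame vectors. -/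
noncomputable def frm (i₀ : ι) (x : Γ × ι) : relZ S i₀ :=
  (relZ S i₀).orthogonalProjectionOnto (toL2 _ (single x 1))

lemma inner_frm (i₀ : ι) (x : Γ × ι) (v : relZ S i₀) : ⟪v, frm S i₀ x⟫_ℝ = v.1 x := by
  rw [frm, Submodule.inner_orthogonalProjectionOnto_eq_of_mem_left, real_inner_comm, inner_toL2,
    sum_single_index (by simp), one_mul]

lemma act_frm (hS : Subgroup.closure (Set.range S) = ⊤) (i₀ : ι) (g x : Γ) (i : ι) :
    actZ S hS i₀ g (frm S i₀ (x, i)) = frm S i₀ (x * g⁻¹, i) := by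
  apply ext_inner_left ℝ
  intro v
  obtain ⟨v, rfl⟩ := (actZ S hS i₀ g).surjective v
  rw [LinearIsometryEquiv.inner_map_map, inner_frm, inner_frm, actZ_apply, inv_mul_cancel_right]

lemma norm_frm (hS : Subgroup.closure (Set.range S) = ⊤) (i₀ : ι) (x : Γ) (i : ι) :
    ‖frm S i₀ (x, i)‖ = ‖frm S i₀ ((1 : Γ), i)‖ := by
  have := act_frm S hS i₀ x x i
  rw [mul_inv_cancel] at this
  rw [← this, LinearIsometryEquiv.norm_map]

lemma frm_parseval (i₀ : ι) (v : relZ S i₀) :
    HasSum (fun x => ⟪v, frm S i₀ x⟫_ℝ ^ 2) (‖v‖ ^ 2) := by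
  simp only [inner_frm]
  exact norm_sq_hasSum v.1

lemma norm_frm_le (i₀ : ι) (x : Γ × ι) : ‖frm S i₀ x‖ ≤ 1 := by
  have h1 : ‖frm S i₀ x‖ ≤ ‖toL2 _ (single x (1 : ℝ))‖ :=
    Submodule.norm_orthogonalProjectionOnto_apply_le _ _
  have h2 : ‖toL2 _ (single x (1 : ℝ))‖ ^ 2 = 1 := by
    rw [norm_toL2_sq, sum_single_index (by simp)]; simp
  have h3 : ‖toL2 _ (single x (1 : ℝ))‖ = 1 := by
    rwa [pow_eq_one_iff_of_nonneg (norm_nonneg _) two_ne_zero] at h2
  rwa [h3] at h1

/-- Lower bound for the norms of the frame vectors. -/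
lemma frm_lower [Fintype ι] (i₀ : ι) (c : ℝ)
    (hc : ∀ e : ι → (Γ × ι →₀ ℝ), (∀ i, e i ∈ relB S i₀) →
      c ≤ ∑ i, (single ((1 : Γ), i) (1 : ℝ) - e i).sum fun _ a => a ^ 2) :
    c ≤ ∑ i, ‖frm S i₀ ((1 : Γ), i)‖ ^ 2 := by
  have key : ∀ η : ℝ, 0 < η → c ≤ ∑ i, (‖frm S i₀ ((1 : Γ), i)‖ + η) ^ 2 := by
    intro η hη
    have hex : ∀ i, ∃ e ∈ relB S i₀,
        ‖toL2 _ (single ((1 : Γ), i) (1 : ℝ) - e)‖ ≤ ‖frm S i₀ ((1 : Γ), i)‖ + η := by
      intro i
      have h1 : toL2 _ (single ((1 : Γ), i) (1 : ℝ)) - (frm S i₀ ((1 : Γ), i) : L2 (Γ × ι)) ∈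
          ((relB S i₀).map (toL2 (Γ × ι))).topologicalClosure := by
        rw [← Submodule.orthogonal_orthogonal_eq_closure]
        exact Submodule.sub_starProjection_mem_orthogonal (K := relZ S i₀) _
      obtain ⟨_, ⟨e, he, rfl⟩, hd⟩ := Metric.mem_closure_iff.1 h1 η hη
      refine ⟨e, he, ?_⟩
      rw [map_sub]
      rw [dist_eq_norm] at hd
      calc ‖toL2 _ (single ((1 : Γ), i) (1 : ℝ)) - toL2 _ e‖
          = ‖(frm S i₀ ((1 : Γ), i) : L2 (Γ × ι)) +
            ((toL2 _ (single ((1 : Γ), i) (1 : ℝ)) - (frm S i₀ ((1 : Γ), i) : L2 (Γ × ι))) -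
              toL2 _ e)‖ := by
            congr 1; abel
        _ ≤ ‖(frm S i₀ ((1 : Γ), i) : L2 (Γ × ι))‖ + _ := norm_add_le _ _
        _ ≤ ‖frm S i₀ ((1 : Γ), i)‖ + η := by
            gcongr
            · exact le_refl _
    choose e he hen using hex
    refine (hc e he).trans (Finset.sum_le_sum fun i _ => ?_)
    rw [← norm_toL2_sq]
    exact pow_le_pow_left₀ (norm_nonneg _) (hen i) 2
  have hcont : Continuous fun η : ℝ => ∑ i, (‖frm S i₀ ((1 : Γ), i)‖ + η) ^ 2 := by fun_prop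
  have hlim := hcont.tendsto 0
  simp only [add_zero] at hlim
  have hlim' : Filter.Tendsto (fun η : ℝ => ∑ i, (‖frm S i₀ ((1 : Γ), i)‖ + η) ^ 2)
      (nhdsWithin 0 (Set.Ioi 0)) (nhds (∑ i, ‖frm S i₀ ((1 : Γ), i)‖ ^ 2)) :=
    hlim.mono_left nhdsWithin_le_nhds
  refine ge_of_tendsto hlim' ?_
  filter_upwards [self_mem_nhdsWithin] with η hη
  exact key η hη

/-- A square summable function invariant under an element of infinite order vanishes. -/
lemma invariant_vanish {N : Type*} [Group N] (φ : N → ℝ) (hφ : Summable fun n => φ n ^ 2) (h : N)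
    (hh : ∀ k : ℕ, h ^ k = 1 → k = 0) (hinv : ∀ n, φ (h * n) = φ n) (n : N) : φ n = 0 := by
  have h1 : ∀ k : ℕ, φ (h ^ k * n) = φ n := by
    intro k
    induction k with
    | zero => simp
    | succ k ih => rw [pow_succ', mul_assoc, hinv, ih]
  have hlt : ∀ a b : ℕ, a < b → h ^ a * n ≠ h ^ b * n := by
    intro a b hab heq
    have h2 := mul_right_cancel heq
    obtain ⟨c, rfl⟩ := Nat.exists_eq_add_of_lt hab
    have h3 : h ^ (c + 1) = 1 := by
      have : h ^ a * h ^ (c + 1) = h ^ a * 1 := by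
        rw [← pow_add, mul_one, h2]; congr 1
      exact mul_left_cancel this
    have := hh _ h3
    omega
  have hinj : Function.Injective fun k : ℕ => h ^ k * n := by
    intro a b hab
    rcases lt_trichotomy a b with hlt' | heq | hgt
    · exact absurd hab (hlt a b hlt')
    · exact heq
    · exact absurd hab.symm (hlt b a hgt)
  have h2 := summable_sub (fun k : ℕ => h ^ k * n) hinj (fun n => φ n ^ 2) hφ
  simp only [h1] at h2
  have h3 := (summable_const_iff (β := ℕ) (a := φ n ^ 2)).1 h2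
  exact (pow_eq_zero_iff two_ne_zero).1 h3

lemma summable_sq_add {X : Type*} (a b : X → ℝ) (ha : Summable fun x => a x ^ 2)
    (hb : Summable fun x => b x ^ 2) : Summable fun x => (a x + b x) ^ 2 := by
  refine Summable.of_nonneg_of_le (fun x => sq_nonneg _) (fun x => ?_)
    ((ha.mul_left 2).add (hb.mul_left 2))
  nlinarith [sq_nonneg (a x - b x)]

/-- An element of `relZ` which vanishes on the edges of a normal subgroup is zero. -/
lemma inj_key (hS : Subgroup.closure (Set.range S) = ⊤) (N : Subgroup Γ) [hN : N.Normal]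
    (J : Set ι) (hJ : Subgroup.closure (S '' J) = N) (i₀ : ι) (hi₀ : i₀ ∈ J)
    (hinf : ∀ k : ℕ, S i₀ ^ k = 1 → k = 0) (v : L2 (Γ × ι)) (hv : v ∈ relZ S i₀)
    (hv0 : ∀ n ∈ N, ∀ j ∈ J, v (n, j) = 0) : v = 0 := by
  obtain ⟨⟨f, hf⟩, h0⟩ := (mem_relZ_iff S hS).1 hv
  have hSN : ∀ j ∈ J, S j ∈ N := by
    intro j hj
    rw [← hJ]
    exact Subgroup.subset_closure ⟨j, hj, rfl⟩
  -- `f` is constant on `N`
  have hconst : ∀ n ∈ Subgroup.closure (S '' J), ∀ m ∈ N, f (n * m) = f m := by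
    intro n hn
    induction hn using Subgroup.closure_induction with
    | mem n hn =>
      obtain ⟨j, hj, rfl⟩ := hn
      intro m hm
      have h1 := hf (S j * m) j
      rw [hv0 _ (N.mul_mem (hSN j hj) hm) j hj, inv_mul_cancel_left] at h1
      linarith
    | one => intro m _; rw [one_mul]
    | mul a b ha hb iha ihb =>
      intro m hm
      rw [mul_assoc, iha _ (N.mul_mem (by rw [← hJ]; exact hb) hm), ihb m hm]
    | inv a ha iha =>
      intro m hm
      have h1 := iha (a⁻¹ * m) (N.mul_mem (N.inv_mem (by rw [← hJ]; exact ha)) hm)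
      rw [mul_inv_cancel_left] at h1
      exact h1.symm
  have hconst' : ∀ n ∈ N, f n = f 1 := by
    intro n hn
    have := hconst n (by rw [hJ]; exact hn) 1 N.one_mem
    rwa [mul_one] at this
  -- all differences are square summable
  have hD : ∀ g ∈ Subgroup.closure (Set.range S), Summable fun x => (f x - f (g⁻¹ * x)) ^ 2 := by
    intro g hg
    induction hg using Subgroup.closure_induction with
    | mem g hg =>
      obtain ⟨i, rfl⟩ := hg
      have h1 := summable_sub (fun x : Γ => (x, i)) (fun a b h => congrArg Prod.fst h)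
        (fun e => v e ^ 2) (norm_sq_hasSum v).summable
      simpa only [hf] using h1
    | one =>
      simp
    | mul a b _ _ iha ihb =>
      have h1 := summable_sub (fun x : Γ => a⁻¹ * x) (mul_right_injective _)
        (fun x => (f x - f (b⁻¹ * x)) ^ 2) ihb
      have h2 := summable_sq_add _ _ iha h1
      refine h2.congr fun x => ?_
      rw [mul_inv_rev, mul_assoc]
      ring
    | inv a _ iha =>
      have h1 := summable_sub (fun x : Γ => a * x) (mul_right_injective _)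
        (fun x => (f x - f (a⁻¹ * x)) ^ 2) iha
      refine h1.congr fun x => ?_
      rw [inv_mul_cancel_left, inv_inv]
      ring
  have hall : ∀ g : Γ, f g⁻¹ = f 1 := by
    intro g
    have h1 := hD g (by rw [hS]; trivial)
    have h2 := summable_sub (fun n : N => (n : Γ)) Subtype.val_injective _ h1
    have h3 : Summable fun n : N => (f (g⁻¹ * n) - f 1) ^ 2 := by
      refine h2.congr fun n => ?_
      rw [hconst' n n.2]; ring
    have ha : g * S i₀ * g⁻¹ ∈ N := hN.conj_mem _ (hSN i₀ hi₀) g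
    have h4 := invariant_vanish (fun n : N => f (g⁻¹ * n) - f 1) h3 ⟨_, ha⟩ (by
      intro k hk
      apply hinf
      have h5 := congrArg Subtype.val hk
      simp only [SubmonoidClass.mk_pow, Subgroup.coe_one, conj_pow] at h5
      have h6 : S i₀ ^ k = g⁻¹ * (g * S i₀ ^ k * g⁻¹) * g := by group
      rw [h6, h5]; group) (by
      intro n
      have h5 := hf (S i₀ * (g⁻¹ * n)) i₀
      rw [h0, inv_mul_cancel_left] at h5
      have h6 : g⁻¹ * ((⟨g * S i₀ * g⁻¹, ha⟩ : N) * n : N) = S i₀ * (g⁻¹ * n) := by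
        rw [Subgroup.coe_mul]
        simp only [mul_assoc, inv_mul_cancel_left]
      rw [h6]
      linarith) 1
    simp only [Subgroup.coe_one, mul_one] at h4
    linarith
  apply lp.ext
  funext x
  obtain ⟨x, i⟩ := x
  rw [hf]
  have h1 := hall x⁻¹
  have h2 := hall ((S i)⁻¹ * x)⁻¹
  rw [inv_inv] at h1 h2
  rw [h1, h2, sub_self]
  rfl

/-- The combination of the lower bound and the trace inequality. -/
theorem combine [Fintype ι] (hS : Subgroup.closure (Set.range S) = ⊤) (N : Subgroup Γ)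
    [hN : N.Normal] (J : Finset ι) (hJ : Subgroup.closure (S '' (J : Set ι)) = N) (i₀ : ι)
    (hi₀ : i₀ ∈ J) (hinf : ∀ k : ℕ, S i₀ ^ k = 1 → k = 0) (c : ℝ)
    (hc : ∀ e : ι → (Γ × ι →₀ ℝ), (∀ i, e i ∈ relB S i₀) →
      c ≤ ∑ i, (single ((1 : Γ), i) (1 : ℝ) - e i).sum fun _ a => a ^ 2)
    (T : Finset (Γ ⧸ N)) : (T.card : ℝ) * c ≤ (J.card : ℝ) - 1 := by
  classical
  let φ : ((Γ ⧸ N) × ι) × N → Γ × ι := fun p => (p.1.1.out * (p.2 : Γ)⁻¹, p.1.2)
  have hφ : Function.Bijective φ := by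
    constructor
    · rintro ⟨⟨y, i⟩, m⟩ ⟨⟨z, j⟩, n⟩ h
      have h1 : y.out * (m : Γ)⁻¹ = z.out * (n : Γ)⁻¹ := congrArg Prod.fst h
      have h2 : i = j := congrArg Prod.snd h
      have h3 : y = z := by
        have h4 : ((y.out * (m : Γ)⁻¹ : Γ) : Γ ⧸ N) = y := by
          rw [QuotientGroup.mk_mul_of_mem _ (N.inv_mem m.2)]
          exact Quotient.out_eq' y
        have h5 : ((z.out * (n : Γ)⁻¹ : Γ) : Γ ⧸ N) = z := by
          rw [QuotientGroup.mk_mul_of_mem _ (N.inv_mem n.2)]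
          exact Quotient.out_eq' z
        rw [← h4, ← h5, h1]
      subst h3
      subst h2
      have h6 : m = n := by
        apply Subtype.ext
        exact inv_injective (mul_left_cancel h1)
      rw [h6]
    · rintro ⟨x, i⟩
      obtain ⟨h, hh⟩ := QuotientGroup.mk_out_eq_mul N x
      refine ⟨((x, i), h), ?_⟩
      change ((x : Γ ⧸ N).out * (h : Γ)⁻¹, i) = (x, i)
      rw [hh, mul_inv_cancel_right]
  let w : ((Γ ⧸ N) × ι) → N → relZ S i₀ := fun y m => frm S i₀ (φ (y, m))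
  have hU : ∀ (n m : N) (y : (Γ ⧸ N) × ι), actZ S hS i₀ (n : Γ) (w y m) = w y (n * m) := by
    intro n m y
    change actZ S hS i₀ (n : Γ) (frm S i₀ (y.1.out * (m : Γ)⁻¹, y.2)) =
      frm S i₀ (y.1.out * ((n * m : N) : Γ)⁻¹, y.2)
    rw [act_frm, Subgroup.coe_mul, mul_inv_rev, mul_assoc]
  have hP : ∀ v, HasSum (fun p : ((Γ ⧸ N) × ι) × N => ⟪v, w p.1 p.2⟫_ℝ ^ 2) (‖v‖ ^ 2) := by
    intro v
    exact (Equiv.ofBijective φ hφ).hasSum_iff.2 (frm_parseval S i₀ v)
  let J' : Finset ((Γ ⧸ N) × ι) := (J.erase i₀).image fun j => (((1 : Γ) : Γ ⧸ N), j)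
  have hJ' : ∀ v : relZ S i₀, (∀ y ∈ J', ∀ n, ⟪v, w y n⟫_ℝ = 0) → v = 0 := by
    intro v hv
    apply Subtype.ext
    apply inj_key S hS N (J : Set ι) hJ i₀ hi₀ hinf v.1 v.2
    intro n hn j hj
    by_cases hji : j = i₀
    · subst hji
      exact ((mem_relZ_iff S hS).1 v.2).2 n
    · have h1 : ((((1 : Γ) : Γ ⧸ N), j) : (Γ ⧸ N) × ι) ∈ J' :=
        Finset.mem_image.2 ⟨j, Finset.mem_erase.2 ⟨hji, hj⟩, rfl⟩
      obtain ⟨h, hh⟩ := QuotientGroup.mk_out_eq_mul N (1 : Γ)
      have h2 := hv _ h1 (⟨n, hn⟩⁻¹ * h)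
      rw [inner_frm] at h2
      have h3 : φ ((((1 : Γ) : Γ ⧸ N), j), (⟨n, hn⟩⁻¹ * h)) = (n, j) := by
        change ((((1 : Γ) : Γ ⧸ N)).out * ((⟨n, hn⟩⁻¹ * h : N) : Γ)⁻¹, j) = (n, j)
        rw [hh]
        simp
      rwa [h3] at h2
  have hmain := trace_ineq w (fun n : N => actZ S hS i₀ (n : Γ)) hU hP J' hJ'
    (T ×ˢ Finset.univ)
  have h1 : ∀ y : Γ ⧸ N, ∑ i, ‖w (y, i) 1‖ ^ 2 = ∑ i, ‖frm S i₀ ((1 : Γ), i)‖ ^ 2 := by
    intro y
    refine Finset.sum_congr rfl fun i _ => ?_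
    rw [← norm_frm S hS i₀ (y.out * ((1 : N) : Γ)⁻¹) i]
  rw [Finset.sum_product] at hmain
  simp only [h1, Finset.sum_const, nsmul_eq_mul] at hmain
  have h2 : (J'.card : ℝ) ≤ (J.card : ℝ) - 1 := by
    have h3 : J'.card ≤ (J.erase i₀).card := Finset.card_image_le
    rw [Finset.card_erase_of_mem hi₀] at h3
    have h4 : 1 ≤ J.card := Finset.card_pos.2 ⟨i₀, hi₀⟩
    have h5 : J'.card + 1 ≤ J.card := by omega
    have h6 : ((J'.card + 1 : ℕ) : ℝ) ≤ (J.card : ℝ) := by exact_mod_cast h5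
    push_cast at h6
    linarith
  have h3 := frm_lower S i₀ c hc
  have h4 : (T.card : ℝ) * c ≤ T.card * ∑ i, ‖frm S i₀ ((1 : Γ), i)‖ ^ 2 :=
    mul_le_mul_of_nonneg_left h3 (Nat.cast_nonneg _)
  exact h4.trans (hmain.trans h2)

end Pool.Agent.Lib.MP_f3dc04_al
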