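import Pool.Agent.Lib.MP_f3dc04_al.Lift
import Pool.Agent.Lib.MP_f3dc04_al.Count
import Pool.Agent.Lib.MP_f3dc04_al.Cayley

/-!
The basic inequality obtained from finite quotients.
-/

namespace Pool.Agent.Lib.MP_f3dc04_al

open Finsupp

universe u v w

/-- A finite dimensional inequality. -/
lemma sum_norm_ge {X : Type*} [Fintype X] (k : ℕ) (v : Fin k → EuclideanSpace ℝ X)
    (hv : LinearIndependent ℝ v) (E : X → EuclideanSpace ℝ X)
    (hE : ∀ x i, inner ℝ (E x) (v i) = v i x) : (k : ℝ) ≤ ∑ x, ‖E x‖ ^ 2 := by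
  classical
  let W := Submodule.span ℝ (Set.range v)
  have hdim : Module.finrank ℝ W = k := by
    rw [finrank_span_eq_card hv, Fintype.card_fin]
  let b := stdOrthonormalBasis ℝ W
  have hEW : ∀ x, ∀ w ∈ W, inner ℝ (E x) w = w x := by
    intro x w hw
    induction hw using Submodule.span_induction with
    | mem w hw =>
      obtain ⟨i, rfl⟩ := hw
      exact hE x i
    | zero => simp
    | add a b _ _ ha hb => rw [inner_add_right, ha, hb]; rfl
    | smul c a _ ha => rw [inner_smul_right, ha]; rfl
  have hb : Orthonormal ℝ (fun i => (b i : EuclideanSpace ℝ X)) :=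
    b.orthonormal.comp_linearIsometry W.subtypeₗᵢ
  have h1 : ∀ x, ∑ i, (b i : EuclideanSpace ℝ X) x ^ 2 ≤ ‖E x‖ ^ 2 := by
    intro x
    have := hb.sum_inner_products_le (E x) (s := Finset.univ)
    refine le_trans (le_of_eq ?_) this
    refine Finset.sum_congr rfl fun i _ => ?_
    rw [Real.norm_eq_abs, sq_abs, real_inner_comm, hEW x _ (b i).2]
  calc (k : ℝ) = ∑ i : Fin (Module.finrank ℝ W), (1 : ℝ) := by
        rw [Finset.sum_const, Finset.card_univ, Fintype.card_fin, hdim]; simp
    _ = ∑ i, ∑ x, (b i : EuclideanSpace ℝ X) x ^ 2 := by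
        refine Finset.sum_congr rfl fun i _ => ?_
        have h2 := hb.1 i
        have h3 := EuclideanSpace.norm_sq_eq (b i : EuclideanSpace ℝ X)
        rw [h2] at h3
        rw [← one_pow 2, h3]
        refine Finset.sum_congr rfl fun x _ => ?_
        rw [Real.norm_eq_abs, sq_abs]
    _ = ∑ x, ∑ i, (b i : EuclideanSpace ℝ X) x ^ 2 := Finset.sum_comm
    _ ≤ ∑ x, ‖E x‖ ^ 2 := Finset.sum_le_sum fun x _ => h1 x

/-- pairing after push-forward -/
lemma sum_mapDomain {X Y : Type*} [Fintype Y] {A : Type*} [AddCommGroup A] (φ : X → Y)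
    (e : X →₀ ℤ) (y : Y → A) : ∑ z, mapDomain φ e z • y z = pair (y ∘ φ) e := by
  induction e using Finsupp.induction_linear with
  | zero => simp
  | add f g hf hg =>
    simp only [mapDomain_add, Finsupp.add_apply, add_smul, Finset.sum_add_distrib, map_add]
    rw [hf, hg]
  | single a b =>
    classical
    rw [mapDomain_single, pair_single]
    rw [Finset.sum_eq_single (φ a)]
    · simp
    · intro z _ hz
      rw [single_eq_of_ne hz, zero_smul]
    · intro h; exact absurd (Finset.mem_univ _) h

section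

variable {Γ : Type u} [Group Γ] {ι : Type v} (S : ι → Γ)

/-- The space spanned by the cycles and the edges with label `i₀`. -/
noncomputable def relB (i₀ : ι) : Submodule ℝ (Γ × ι →₀ ℝ) :=
  Submodule.span ℝ ({e | ∃ c : Γ × ι →₀ ℤ, bd S c = 0 ∧
    e = c.mapRange (Int.castAddHom ℝ) (map_zero _)} ∪ {e | ∃ x, e = single (x, i₀) 1})

/-- the translation of edges followed by the projection to a quotient -/
def trq {Q : Type w} [Group Q] (q : Γ →* Q) (h : Q) : Γ × ι → Q × ι := fun e => (q e.1 * h, e.2)

/-- The integer relations for functions on the edges of a finite quotient. -/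
def cycC {Q : Type w} [Group Q] (q : Γ →* Q) : Set (Q × ι → ℤ) :=
  {c | ∃ e : Γ × ι →₀ ℤ, bd S e = 0 ∧ ∃ h : Q, c = ⇑(mapDomain (trq q h) e)}

/-- The integer relations for functions on the edges of a finite quotient. -/
def relC [DecidableEq ι] {Q : Type w} [Group Q] [DecidableEq Q] (q : Γ →* Q) (i₀ : ι) :
    Set (Q × ι → ℤ) :=
  cycC S q ∪ {c | ∃ z : Q, c = Pi.single (z, i₀) 1}

end

/-- The number of solutions. -/
lemma card_solSet_ge {P : Type u} [Group P] {α : Type v} (h : SameNilp P α) (p : ℕ)
    [hp : Fact p.Prime] {r : ℕ} (x : Fin r → P)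
    (hx : ∀ c : Fin r → Multiplicative (ZMod p), ∃ χ : P →* Multiplicative (ZMod p),
      ∀ i, χ (x i) = c i)
    {Γ : Type*} [Group Γ] {ι : Type*} [Fintype ι] [DecidableEq ι] (S : ι → Γ) (f : Γ →* P)
    (idx : Fin r → ι) (hidx : ∀ k, f (S (idx k)) = x k) (i₀ : ι)
    (Q : Type) [Group Q] [Fintype Q] [DecidableEq Q] (hQ : IsPGroup p Q) (q : P →* Q)
    (hq : Function.Surjective q) (j : ℕ) :
    p ^ (j * ((r - 1) * Fintype.card Q)) ≤
      Nat.card (solSet (relC S (q.comp f) i₀) (ZMod (p ^ j))) := by
  have : NeZero (p ^ j) := ⟨pow_ne_zero _ hp.out.ne_zero⟩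
  let A := ZMod (p ^ j)
  let A0 := solSet (cycC S (q.comp f)) A
  let R1 : A0 → (Fin r → Q → A) := fun y k z => y.1 (z, idx k)
  have hR1 : Function.Surjective R1 := by
    intro m
    obtain ⟨F, b, hFb, hb⟩ := exists_potential h p x hx Q hQ q j m
    refine ⟨⟨fun e => b (f (S e.2)) e.1, ?_⟩, ?_⟩
    · rintro c ⟨e, he, h', rfl⟩
      rw [sum_mapDomain]
      obtain ⟨h', rfl⟩ := hq h'
      have := pair_grad S (fun y => F (f y * h'))
        ((fun e : Q × ι => b (f (S e.2)) e.1) ∘ trq (q.comp f) (q h')) (by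
          intro y i
          have := hFb (f (S i)) (f y * h')
          rw [map_mul] at this
          change b (f (S i)) (q (f y) * q h') = F (f y * h') - F (f ((S i)⁻¹ * y) * h')
          rw [← this, map_mul, map_inv, mul_assoc]) e
      rw [this, he, map_zero]
    · funext k z
      change b (f (S (idx k))) z = m k z
      rw [hidx, hb]
  let R0 : A0 →+ (Q → A) :=
    { toFun := fun y z => y.1 (z, i₀)
      map_zero' := rfl
      map_add' := fun _ _ => rfl }
  have h1 : Nat.card (Fin r → Q → A) ≤ Nat.card A0 := Nat.card_le_card_of_surjective R1 hR1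
  have h2 : Nat.card A0 = Nat.card (A0 ⧸ R0.ker) * Nat.card R0.ker :=
    AddSubgroup.card_eq_card_quotient_mul_card_addSubgroup _
  have h3 : Nat.card (A0 ⧸ R0.ker) ≤ Nat.card (Q → A) :=
    Nat.card_le_card_of_injective _ (QuotientAddGroup.kerLift_injective R0)
  have h4 : Nat.card R0.ker ≤ Nat.card (solSet (relC S (q.comp f) i₀) A) := by
    have hmem : ∀ y : R0.ker, y.1.1 ∈ solSet (relC S (q.comp f) i₀) A := by
      intro y
      rintro c (hc | ⟨z, rfl⟩)
      · exact y.1.2 c hc
      · have := congrFun (AddMonoidHom.mem_ker.1 y.2) z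
        change y.1.1 (z, i₀) = 0 at this
        rw [Finset.sum_eq_single (z, i₀)]
        · rw [this, smul_zero]
        · intro b _ hb
          rw [Pi.single_eq_of_ne hb, zero_smul]
        · intro h; exact absurd (Finset.mem_univ _) h
    let F4 : R0.ker → solSet (relC S (q.comp f) i₀) A := fun y => ⟨y.1.1, hmem y⟩
    have hF4 : Function.Injective F4 := by
      intro y z hyz
      have h8 : (F4 y).1 = (F4 z).1 := congrArg Subtype.val hyz
      apply Subtype.ext
      apply Subtype.ext
      exact h8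
    exact Nat.card_le_card_of_injective F4 hF4
  have hA : Nat.card (Fin r → Q → A) = (p ^ j) ^ (Fintype.card Q * r) := by
    rw [Nat.card_fun, Nat.card_fun, Nat.card_zmod, Nat.card_eq_fintype_card,
      Nat.card_eq_fintype_card, Fintype.card_fin, pow_mul]
  have hA' : Nat.card (Q → A) = (p ^ j) ^ (Fintype.card Q) := by
    rw [Nat.card_fun, Nat.card_zmod, Nat.card_eq_fintype_card]
  rw [hA] at h1
  rw [hA'] at h3
  rcases Nat.eq_zero_or_pos r with rfl | hr
  · have : Nonempty (solSet (relC S (q.comp f) i₀) A) := ⟨0⟩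
    have h0 := Nat.card_pos (α := solSet (relC S (q.comp f) i₀) A)
    simp only [Nat.zero_sub, Nat.zero_mul, Nat.mul_zero, pow_zero]
    exact h0
  have h5 : (p ^ j) ^ (Fintype.card Q * r) ≤ (p ^ j) ^ Fintype.card Q *
      Nat.card (solSet (relC S (q.comp f) i₀) A) := by
    calc (p ^ j) ^ (Fintype.card Q * r) ≤ Nat.card A0 := h1
      _ = Nat.card (A0 ⧸ R0.ker) * Nat.card R0.ker := h2
      _ ≤ _ := Nat.mul_le_mul h3 h4
  have h6 : Fintype.card Q * r = Fintype.card Q + (r - 1) * Fintype.card Q := by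
    obtain ⟨r, rfl⟩ := Nat.exists_eq_succ_of_ne_zero hr.ne'
    simp; ring
  rw [h6, pow_add] at h5
  have h7 := Nat.le_of_mul_le_mul_left h5 (pow_pos (pow_pos hp.out.pos _) _)
  rwa [← pow_mul] at h7

/-- The key inequality. -/
theorem key_ineq {P : Type u} [Group P] {α : Type v} (h : SameNilp P α) (p : ℕ)
    [hp : Fact p.Prime] {r : ℕ} (hr : 1 ≤ r) (x : Fin r → P)
    (hx : ∀ c : Fin r → Multiplicative (ZMod p), ∃ χ : P →* Multiplicative (ZMod p),
      ∀ i, χ (x i) = c i)
    (hres : ∀ F : Finset P, ∃ (Q : Type) (_ : Group Q) (_ : Finite Q) (q : P →* Q),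
      IsPGroup p Q ∧ Function.Surjective q ∧ Set.InjOn q F)
    {Γ : Type*} [Group Γ] {ι : Type*} [Fintype ι] [DecidableEq ι] (S : ι → Γ) (f : Γ →* P)
    (hf : Function.Injective f)
    (idx : Fin r → ι) (hidx : ∀ k, f (S (idx k)) = x k) (i₀ : ι)
    (e : ι → (Γ × ι →₀ ℝ)) (he : ∀ i, e i ∈ relB S i₀) :
    (r : ℝ) - 1 ≤ ∑ i, (single ((1 : Γ), i) (1 : ℝ) - e i).sum fun _ a => a ^ 2 := by
  classical
  let v : ι → (Γ × ι →₀ ℝ) := fun i => single ((1 : Γ), i) (1 : ℝ) - e i
  obtain ⟨Q, _, _, q, hQ, hq, hinj⟩ := hres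
    (Finset.univ.biUnion fun i => (v i).support.image fun e => f e.1)
  have : Fintype Q := Fintype.ofFinite Q
  obtain ⟨V, U, hV, hVU⟩ := count_dim (relC S (q.comp f) i₀) p ((r - 1) * Fintype.card Q)
    (card_solSet_ge h p x hx S f idx hidx i₀ Q hQ q hq)
  -- real vectors
  let V' : Fin ((r - 1) * Fintype.card Q) → EuclideanSpace ℝ (Q × ι) :=
    fun k => WithLp.toLp 2 fun z => (V k z : ℝ)
  have hV'ind : LinearIndependent ℝ V' := by
    rw [Fintype.linearIndependent_iff]
    intro g hg k
    have h1 : ∀ z, ∑ l, g l * (V l z : ℝ) = 0 := by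
      intro z
      have := congrArg (fun w : EuclideanSpace ℝ (Q × ι) => w z) hg
      simpa [V'] using this
    have h2 : ∑ z, (∑ l, g l * (V l z : ℝ)) * (U k z : ℝ) = 0 := by
      refine Finset.sum_eq_zero fun z _ => ?_
      rw [h1, zero_mul]
    simp only [Finset.sum_mul] at h2
    rw [Finset.sum_comm] at h2
    have h3 : ∀ l, ∑ z, g l * (V l z : ℝ) * (U k z : ℝ) = if l = k then g l else 0 := by
      intro l
      have h4 := hVU l k
      have h5 : ∑ z, (V l z : ℝ) * (U k z : ℝ) = if l = k then 1 else 0 := by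
        have := congrArg (Int.cast : ℤ → ℝ) h4
        push_cast at this
        rw [this]
      simp only [mul_assoc]
      rw [← Finset.mul_sum, h5]
      split_ifs <;> simp
    simp only [h3] at h2
    simpa using h2
  -- pairing of elements of `relB` with the real vectors
  have hpair : ∀ (k) (y : Q), ∀ b ∈ relB S i₀,
      (b.sum fun x a => a * (V k (trq (q.comp f) y x) : ℝ)) = 0 := by
    intro k y b hb
    induction hb using Submodule.span_induction with
    | mem b hb =>
      rcases hb with ⟨c, hc, rfl⟩ | ⟨z, rfl⟩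
      · have h1 := hV k (⇑(mapDomain (trq (q.comp f) y) c)) (Or.inl ⟨c, hc, y, rfl⟩)
        rw [sum_mapDomain] at h1
        have h2 : ∀ (w : Γ × ι → ℤ) (c : Γ × ι →₀ ℤ),
            ((c.mapRange (Int.castAddHom ℝ) (map_zero _)).sum fun x a => a * (w x : ℝ)) =
              ((pair w c : ℤ) : ℝ) := by
          intro w c
          rw [sum_mapRange_index (by simp)]
          induction c using Finsupp.induction_linear with
          | zero => simp
          | add f g hf hg =>
            rw [sum_add_index' (by simp) (by intros; simp [add_mul]), hf, hg, map_add]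
            push_cast; rfl
          | single a b =>
            rw [sum_single_index (by simp), pair_single]
            simp
        have h3 := h2 (V k ∘ trq (q.comp f) y) c
        rw [h1, Int.cast_zero] at h3
        exact h3
      · rw [sum_single_index (by simp), one_mul]
        have h1 := hV k (Pi.single (q (f z) * y, i₀) 1) (Or.inr ⟨_, rfl⟩)
        rw [Finset.sum_eq_single (q (f z) * y, i₀)] at h1
        · rw [Pi.single_eq_same, one_smul] at h1
          change ((V k (q (f z) * y, i₀) : ℤ) : ℝ) = 0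
          rw [h1, Int.cast_zero]
        · intro b _ hb
          rw [Pi.single_eq_of_ne hb, zero_smul]
        · intro h; exact absurd (Finset.mem_univ _) h
    | zero => simp
    | add a b _ _ ha hb =>
      rw [sum_add_index' (by simp) (by intros; simp [add_mul]), ha, hb, add_zero]
    | smul c a _ ha =>
      rw [sum_smul_index (by simp)]
      simp only [mul_assoc]
      rw [← Finsupp.mul_sum, ha, mul_zero]
  let E : Q × ι → EuclideanSpace ℝ (Q × ι) := fun z =>
    WithLp.toLp 2 ⇑(mapDomain (trq (q.comp f) z.1) (v z.2))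
  have hE : ∀ z k, inner ℝ (E z) (V' k) = V' k z := by
    rintro ⟨y, i⟩ k
    have h1 : inner ℝ (E (y, i)) (V' k) =
        ∑ z, mapDomain (trq (q.comp f) y) (v i) z * (V k z : ℝ) := by
      rw [PiLp.inner_apply]
      refine Finset.sum_congr rfl fun z _ => ?_
      simp [E, V', mul_comm]
    have h2 : ∑ z, mapDomain (trq (q.comp f) y) (v i) z * (V k z : ℝ) =
        (mapDomain (trq (q.comp f) y) (v i)).sum fun z a => a * (V k z : ℝ) := by
      rw [Finsupp.sum_fintype _ _ (by simp)]
    have h3 : (mapDomain (trq (q.comp f) y) (v i)).sum (fun z a => a * (V k z : ℝ)) =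
        (v i).sum fun x a => a * (V k (trq (q.comp f) y x) : ℝ) :=
      sum_mapDomain_index (by simp) (by intros; simp [add_mul])
    rw [h1, h2, h3]
    change (single ((1 : Γ), i) (1 : ℝ) - e i).sum _ = _
    rw [sum_sub_index (by intros; simp [sub_mul]), hpair k y _ (he i), sub_zero,
      sum_single_index (by simp), one_mul]
    simp [trq, V']
  have hkey := sum_norm_ge _ V' hV'ind E hE
  have hEn : ∀ z, ‖E z‖ ^ 2 = (v z.2).sum fun _ a => a ^ 2 := by
    rintro ⟨y, i⟩
    have hinj' : Set.InjOn (trq (ι := ι) (q.comp f) y) ((v i).support : Set (Γ × ι)) := by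
      rintro ⟨a, l⟩ ha ⟨b, m⟩ hb hab
      have h1 : q (f a) * y = q (f b) * y := congrArg Prod.fst hab
      have h2 : l = m := congrArg Prod.snd hab
      have h3 := mul_right_cancel h1
      have h4 : f a = f b := by
        apply hinj _ _ h3
        · simp only [Finset.coe_biUnion, Set.mem_iUnion, Finset.coe_image, Set.mem_image,
            Finset.mem_coe]
          exact ⟨i, Finset.mem_univ _, (a, l), ha, rfl⟩
        · simp only [Finset.coe_biUnion, Set.mem_iUnion, Finset.coe_image, Set.mem_image,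
            Finset.mem_coe]
          exact ⟨i, Finset.mem_univ _, (b, m), hb, rfl⟩
      rw [hf h4, h2]
    rw [EuclideanSpace.norm_sq_eq]
    change ∑ z, ‖mapDomain (trq (q.comp f) y) (v i) z‖ ^ 2 = _
    have h1 : ∑ z, ‖mapDomain (trq (q.comp f) y) (v i) z‖ ^ 2 =
        ∑ z ∈ (v i).support.image (trq (q.comp f) y),
          ‖mapDomain (trq (q.comp f) y) (v i) z‖ ^ 2 := by
      symm
      apply Finset.sum_subset (Finset.subset_univ _)
      intro z _ hz
      have : z ∉ (mapDomain (trq (q.comp f) y) (v i)).support := fun h => hz (mapDomain_support h)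
      rw [notMem_support_iff.1 this]
      simp
    rw [h1, Finset.sum_image (fun a ha b hb hab => hinj' ha hb hab), Finsupp.sum]
    refine Finset.sum_congr rfl fun z hz => ?_
    rw [mapDomain_apply' _ _ (Set.Subset.refl _) hinj' hz, Real.norm_eq_abs, sq_abs]
  simp only [hEn] at hkey
  rw [Fintype.sum_prod_type] at hkey
  simp only [Finset.sum_const, Finset.card_univ, nsmul_eq_mul] at hkey
  have hcard : (0 : ℝ) < Fintype.card Q := by exact_mod_cast Fintype.card_pos
  have h8 : (((r - 1) * Fintype.card Q : ℕ) : ℝ) = ((r : ℝ) - 1) * Fintype.card Q := by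
    rw [Nat.cast_mul, Nat.cast_sub hr, Nat.cast_one]
  rw [h8, mul_comm] at hkey
  exact le_of_mul_le_mul_left hkey hcard

end Pool.Agent.Lib.MP_f3dc04_al
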