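import Mathlib

/-!
A trace inequality for invariant Parseval frames.
-/

namespace Pool.Agent.Lib.MP_f3dc04_al

open scoped InnerProductSpace

lemma tsum_sub_le {A B : Type*} (e : A → B) (he : Function.Injective e) (g : B → ℝ)
    (hg : Summable g) (h0 : ∀ b, 0 ≤ g b) : ∑' a, g (e a) ≤ ∑' b, g b :=
  Summable.tsum_le_tsum_of_inj e he (fun _ _ => h0 _) (fun _ => le_refl _)
    (hg.comp_injective he) hg

lemma summable_sub {A B : Type*} (e : A → B) (he : Function.Injective e) (g : B → ℝ)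
    (hg : Summable g) : Summable (fun a => g (e a)) := hg.comp_injective he

lemma exists_pos_lt {Y : Type*} (s : Finset Y) (f : Y → ℝ) (hf : ∀ y, 0 < f y) :
    ∃ ε : ℝ, 0 < ε ∧ ∀ y ∈ s, ε < f y := by
  classical
  induction s using Finset.induction_on with
  | empty => exact ⟨1, one_pos, fun y hy => absurd hy (Finset.notMem_empty _)⟩
  | insert a s _ ih =>
    obtain ⟨ε, hε, h⟩ := ih
    refine ⟨min ε (f a / 2), lt_min hε (half_pos (hf a)), ?_⟩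
    intro y hy
    rcases Finset.mem_insert.1 hy with rfl | hy
    · exact lt_of_le_of_lt (min_le_right _ _) (half_lt_self (hf y))
    · exact lt_of_le_of_lt (min_le_left _ _) (h y hy)

section Resolvent

variable {Z : Type*} [NormedAddCommGroup Z] [InnerProductSpace ℝ Z] [CompleteSpace Z]
  {H : Type*} [NormedAddCommGroup H] [InnerProductSpace ℝ H] [CompleteSpace H]

/-- Existence of the resolvent of `T† T`. -/
lemma exists_resolvent (T : Z →L[ℝ] H) (ε : ℝ) (hε : 0 < ε) :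
    ∃ R : Z →L[ℝ] Z, ∀ u v, ⟪T (R u), T v⟫_ℝ + ε * ⟪R u, v⟫_ℝ = ⟪u, v⟫_ℝ := by
  let A : Z →L[ℝ] Z := (ContinuousLinearMap.adjoint T).comp T + ε • ContinuousLinearMap.id ℝ Z
  have hA : ∀ u v, ⟪A u, v⟫_ℝ = ⟪T u, T v⟫_ℝ + ε * ⟪u, v⟫_ℝ := by
    intro u v
    simp only [A, add_apply, ContinuousLinearMap.comp_apply,
      smul_apply, ContinuousLinearMap.id_apply, inner_add_left,
      real_inner_smul_left, ContinuousLinearMap.adjoint_inner_left]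
  let B : Z →L[ℝ] Z →L[ℝ] ℝ := (innerSL ℝ).comp A
  have hBA : ∀ u v, B u v = ⟪A u, v⟫_ℝ := fun u v => rfl
  have hB : IsCoercive B := by
    refine ⟨ε, hε, fun u => ?_⟩
    rw [hBA, hA, real_inner_self_eq_norm_sq, real_inner_self_eq_norm_sq]
    have : 0 ≤ ‖T u‖ ^ 2 := sq_nonneg _
    nlinarith
  let E := hB.continuousLinearEquivOfBilin
  have hE : ∀ u v, ⟪E u, v⟫_ℝ = ⟪T u, T v⟫_ℝ + ε * ⟪u, v⟫_ℝ := by
    intro u v
    rw [← hA, ← hBA]
    exact hB.continuousLinearEquivOfBilin_apply u v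
  refine ⟨(E.symm : Z →L[ℝ] Z), fun u v => ?_⟩
  rw [← hE]
  simp

end Resolvent

section Trace

variable {Z : Type*} [NormedAddCommGroup Z] [InnerProductSpace ℝ Z] [CompleteSpace Z]
  {N : Type*} [Group N] {Y : Type*} (w : Y → N → Z)

omit [CompleteSpace Z] [Group N] in
lemma parseval_polar (hP : ∀ v, HasSum (fun p : Y × N => ⟪v, w p.1 p.2⟫_ℝ ^ 2) (‖v‖ ^ 2))
    (a b : Z) :
    HasSum (fun p : Y × N => ⟪a, w p.1 p.2⟫_ℝ * ⟪b, w p.1 p.2⟫_ℝ) ⟪a, b⟫_ℝ := by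
  have h1 := ((hP (a + b)).sub (hP (a - b))).mul_left (1 / 4 : ℝ)
  have e1 : (fun p : Y × N => ⟪a, w p.1 p.2⟫_ℝ * ⟪b, w p.1 p.2⟫_ℝ) = fun p =>
      1 / 4 * (⟪a + b, w p.1 p.2⟫_ℝ ^ 2 - ⟪a - b, w p.1 p.2⟫_ℝ ^ 2) := by
    funext p
    rw [inner_add_left, inner_sub_left]; ring
  have e2 : ⟪a, b⟫_ℝ = 1 / 4 * (‖a + b‖ ^ 2 - ‖a - b‖ ^ 2) := by
    rw [norm_add_sq_real, norm_sub_sq_real]; ring
  rw [e1, e2]
  exact h1

end Trace

section Analysis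

variable {Z : Type*} [NormedAddCommGroup Z] [InnerProductSpace ℝ Z]
  {I : Type*} (w : I → Z)

/-- The analysis operator, algebraically. -/
noncomputable def anal (hs : ∀ v, Summable (fun p : I => ⟪v, w p⟫_ℝ ^ 2)) :
    Z →ₗ[ℝ] (lp (fun _ : I => ℝ) 2) where
  toFun := fun v => ⟨fun p => ⟪v, w p⟫_ℝ, memℓp_gen (by simpa using hs v)⟩
  map_add' := by
    intro a b
    apply lp.ext
    funext p
    exact inner_add_left _ _ _
  map_smul' := by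
    intro c a
    apply lp.ext
    funext p
    exact real_inner_smul_left _ _ _

/-- The analysis operator. -/
lemma exists_analysis (hs : ∀ v, Summable (fun p : I => ⟪v, w p⟫_ℝ ^ 2))
    (hle : ∀ v, ∑' p : I, ⟪v, w p⟫_ℝ ^ 2 ≤ ‖v‖ ^ 2) :
    ∃ T : Z →L[ℝ] (lp (fun _ : I => ℝ) 2),
      ∀ u v, HasSum (fun p => ⟪u, w p⟫_ℝ * ⟪v, w p⟫_ℝ) ⟪T u, T v⟫_ℝ := by
  have hT₀ : ∀ v p, anal w hs v p = ⟪v, w p⟫_ℝ := fun v p => rfl
  have hb : ∀ v, ‖anal w hs v‖ ≤ 1 * ‖v‖ := by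
    intro v
    rw [one_mul]
    apply le_of_sq_le_sq _ (norm_nonneg v)
    rw [← real_inner_self_eq_norm_sq, lp.inner_eq_tsum]
    refine le_trans (le_of_eq ?_) (hle v)
    congr 1
    funext p
    rw [hT₀, real_inner_self_eq_norm_sq, Real.norm_eq_abs, sq_abs]
  refine ⟨(anal w hs).mkContinuous 1 hb, fun u v => ?_⟩
  have := lp.hasSum_inner (𝕜 := ℝ) (G := fun _ : I => ℝ) ((anal w hs) u) ((anal w hs) v)
  have h2 : (fun p => ⟪u, w p⟫_ℝ * ⟪v, w p⟫_ℝ) = fun p => ⟪(anal w hs) u p, (anal w hs) v p⟫_ℝ := by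
    funext p
    rw [hT₀, hT₀]
    simp [mul_comm]
  rw [h2]
  exact this

end Analysis

section Main

variable {Z : Type*} [NormedAddCommGroup Z] [InnerProductSpace ℝ Z] [CompleteSpace Z]
  {N : Type*} [Group N] {Y : Type*} (w : Y → N → Z)

/-- The inequality for the resolvent. -/
lemma resolvent_ineq (U : N → Z ≃ₗᵢ[ℝ] Z) (hU : ∀ n m y, U n (w y m) = w y (n * m))
    (hP : ∀ v, HasSum (fun p : Y × N => ⟪v, w p.1 p.2⟫_ℝ ^ 2) (‖v‖ ^ 2))
    (J : Finset Y) (T : Z →L[ℝ] (lp (fun _ : J × N => ℝ) 2))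
    (hT : ∀ u v, HasSum (fun p : J × N => ⟪u, w p.1 p.2⟫_ℝ * ⟪v, w p.1 p.2⟫_ℝ) ⟪T u, T v⟫_ℝ)
    (ε : ℝ) (hε : 0 < ε) (R : Z →L[ℝ] Z)
    (hR : ∀ u v, ⟪T (R u), T v⟫_ℝ + ε * ⟪R u, v⟫_ℝ = ⟪u, v⟫_ℝ) (Y0 : Finset Y) :
    ∑ y ∈ Y0, (‖w y 1‖ ^ 2 - ε * ⟪R (w y 1), w y 1⟫_ℝ) ≤ J.card := by
  have hPP := parseval_polar w hP
  -- uniqueness
  have huniq : ∀ u x, (∀ v, ⟪T x, T v⟫_ℝ + ε * ⟪x, v⟫_ℝ = ⟪u, v⟫_ℝ) → x = R u := by
    intro u x hx
    have h1 : ∀ v, ⟪T (x - R u), T v⟫_ℝ + ε * ⟪x - R u, v⟫_ℝ = 0 := by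
      intro v
      have h2 := hx v
      have h3 := hR u v
      rw [map_sub, inner_sub_left, inner_sub_left]
      linarith
    have h4 := h1 (x - R u)
    rw [real_inner_self_eq_norm_sq, real_inner_self_eq_norm_sq] at h4
    have h5 : ‖x - R u‖ ^ 2 ≤ 0 := by
      by_contra hcon
      push Not at hcon
      have := mul_pos hε hcon
      have := sq_nonneg ‖T (x - R u)‖
      linarith
    have h6 : ‖x - R u‖ = 0 := by
      have := sq_nonneg ‖x - R u‖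
      have h7 : ‖x - R u‖ ^ 2 = 0 := le_antisymm h5 this
      exact pow_eq_zero_iff (two_ne_zero) |>.1 h7
    exact sub_eq_zero.1 (norm_eq_zero.1 h6)
  have hsymm : ∀ u v, ⟪R u, v⟫_ℝ = ⟪u, R v⟫_ℝ := by
    intro u v
    have h1 := hR u (R v)
    have h2 := hR v (R u)
    rw [real_inner_comm, ← h2, ← h1] 
    rw [real_inner_comm (T (R u)) (T (R v)), real_inner_comm (R u) (R v)]
  have hTU : ∀ n u v, ⟪T (U n u), T (U n v)⟫_ℝ = ⟪T u, T v⟫_ℝ := by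
    intro n u v
    have h1 := hT (U n u) (U n v)
    have h2 := hT u v
    let e : J × N ≃ J × N := Equiv.prodCongr (Equiv.refl J) (Equiv.mulLeft n)
    have h3 := (e.hasSum_iff).2 h1
    refine h3.unique ?_
    convert h2 using 1
    funext p
    have h4 : ∀ x, ⟪U n x, w p.1 (n * p.2)⟫_ℝ = ⟪x, w p.1 p.2⟫_ℝ := by
      intro x
      rw [← hU, LinearIsometryEquiv.inner_map_map]
    change ⟪U n u, w p.1 (n * p.2)⟫_ℝ * ⟪U n v, w p.1 (n * p.2)⟫_ℝ = _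
    rw [h4, h4]
  have hRU : ∀ n u, R (U n u) = U n (R u) := by
    intro n u
    symm
    apply huniq
    intro v
    obtain ⟨v, rfl⟩ := (U n).surjective v
    rw [hTU, LinearIsometryEquiv.inner_map_map, LinearIsometryEquiv.inner_map_map]
    exact hR u v
  let c : Y → ℝ := fun y => ⟪T (R (w y 1)), T (w y 1)⟫_ℝ
  have hc : ∀ y, c y = ‖w y 1‖ ^ 2 - ε * ⟪R (w y 1), w y 1⟫_ℝ := by
    intro y
    have := hR (w y 1) (w y 1)
    rw [real_inner_self_eq_norm_sq] at this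
    simp only [c]
    linarith
  have hc0 : ∀ y, 0 ≤ c y := by
    intro y
    let K : Z →L[ℝ] Z := (ContinuousLinearMap.adjoint T).comp T
    have hK : ∀ u v, ⟪K u, v⟫_ℝ = ⟪T u, T v⟫_ℝ := fun u v => by
      simp only [K, ContinuousLinearMap.comp_apply, ContinuousLinearMap.adjoint_inner_left]
    have h1 := hR (w y 1) (K (R (w y 1)))
    have h2 : ⟪T (R (w y 1)), T (K (R (w y 1)))⟫_ℝ = ‖K (R (w y 1))‖ ^ 2 := by
      rw [← hK, real_inner_self_eq_norm_sq]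
    have h3 : ⟪R (w y 1), K (R (w y 1))⟫_ℝ = ‖T (R (w y 1))‖ ^ 2 := by
      rw [real_inner_comm, hK, real_inner_self_eq_norm_sq]
    have h4 : ⟪w y 1, K (R (w y 1))⟫_ℝ = c y := by
      rw [real_inner_comm, hK]
    rw [h2, h3, h4] at h1
    rw [← h1]
    positivity
  let G : Y → (Y × N) → ℝ := fun j p => ⟪R (w j 1), w p.1 p.2⟫_ℝ * ⟪w j 1, w p.1 p.2⟫_ℝ
  have hG : ∀ j, HasSum (G j) ⟪R (w j 1), w j 1⟫_ℝ := fun j => hPP _ _
  have hGs : HasSum (fun p => ∑ j ∈ J, G j p) (∑ j ∈ J, ⟪R (w j 1), w j 1⟫_ℝ) :=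
    hasSum_sum fun j _ => hG j
  have hfib : ∀ y, HasSum (fun n => ∑ j ∈ J, G j (y, n)) (c y) := by
    intro y
    have h1 := hT (R (w y 1)) (w y 1)
    have h2 := ((Equiv.prodComm N J).hasSum_iff).2 h1
    have h3 := h2.prod_fiberwise (fun n => hasSum_fintype _)
    have h4 := ((Equiv.inv N).hasSum_iff).2 h3
    have h5 : (fun n => ∑ j ∈ J, G j (y, n)) =
        ((fun n => ∑ j : J, ((fun p : J × N => ⟪R (w y 1), w p.1 p.2⟫_ℝ * ⟪w y 1, w p.1 p.2⟫_ℝ) ∘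
          Equiv.prodComm N J) (n, j)) ∘ Equiv.inv N) := by
      funext n
      change ∑ j ∈ J, G j (y, n) =
        ∑ j : J, ⟪R (w y 1), w j n⁻¹⟫_ℝ * ⟪w y 1, w j n⁻¹⟫_ℝ
      rw [← Finset.sum_coe_sort J]
      refine Finset.sum_congr rfl fun j _ => ?_
      have e1 : w y 1 = U n⁻¹ (w y n) := by rw [hU, inv_mul_cancel]
      have e2 : w (j : Y) n⁻¹ = U n⁻¹ (w j 1) := by rw [hU, mul_one]
      rw [e1, e2, hRU, LinearIsometryEquiv.inner_map_map, LinearIsometryEquiv.inner_map_map, hsymm,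
        real_inner_comm (R (w (j : Y) 1)) (w y n), real_inner_comm (w (j : Y) 1) (w y n)]
    rw [h5]
    exact h4
  have hsum := hGs.prod_fiberwise hfib
  have hJle : ∀ j ∈ J, ⟪R (w j 1), w j 1⟫_ℝ ≤ 1 := by
    intro j hj
    have h1 := hR (w j 1) (R (w j 1))
    have h2 := hT (R (w j 1)) (R (w j 1))
    have h3 : ⟪R (w j 1), w j 1⟫_ℝ ^ 2 ≤ ⟪T (R (w j 1)), T (R (w j 1))⟫_ℝ := by
      have := le_hasSum h2 (⟨j, hj⟩, 1) (fun p _ => mul_self_nonneg _)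
      rw [sq]
      exact this
    rw [real_inner_self_eq_norm_sq (R (w j 1))] at h1
    have h4 : 0 ≤ ε * ‖R (w j 1)‖ ^ 2 := by positivity
    rw [real_inner_comm (R (w j 1)) (w j 1)] at h1
    by_contra hcon
    push Not at hcon
    nlinarith
  calc ∑ y ∈ Y0, (‖w y 1‖ ^ 2 - ε * ⟪R (w y 1), w y 1⟫_ℝ) = ∑ y ∈ Y0, c y :=
        Finset.sum_congr rfl fun y _ => (hc y).symm
    _ ≤ ∑ j ∈ J, ⟪R (w j 1), w j 1⟫_ℝ := sum_le_hasSum Y0 (fun y _ => hc0 y) hsum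
    _ ≤ ∑ j ∈ J, (1 : ℝ) := Finset.sum_le_sum hJle
    _ = J.card := by simp

/-- The trace inequality. -/
theorem trace_ineq (U : N → Z ≃ₗᵢ[ℝ] Z) (hU : ∀ n m y, U n (w y m) = w y (n * m))
    (hP : ∀ v, HasSum (fun p : Y × N => ⟪v, w p.1 p.2⟫_ℝ ^ 2) (‖v‖ ^ 2))
    (J : Finset Y) (hJ : ∀ v, (∀ j ∈ J, ∀ n, ⟪v, w j n⟫_ℝ = 0) → v = 0) (Y0 : Finset Y) :
    ∑ y ∈ Y0, ‖w y 1‖ ^ 2 ≤ J.card := by
  have hinj : Function.Injective (fun p : J × N => ((p.1 : Y), p.2)) := by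
    rintro ⟨a, n⟩ ⟨b, m⟩ h
    simp only [Prod.mk.injEq] at h
    apply Prod.ext
    · exact Subtype.ext h.1
    · exact h.2
  have hs : ∀ v, Summable (fun p : J × N => ⟪v, w p.1 p.2⟫_ℝ ^ 2) := fun v =>
    summable_sub (fun p : J × N => ((p.1 : Y), p.2)) hinj
      (fun p : Y × N => ⟪v, w p.1 p.2⟫_ℝ ^ 2) (hP v).summable
  have hle : ∀ v, ∑' p : J × N, ⟪v, w p.1 p.2⟫_ℝ ^ 2 ≤ ‖v‖ ^ 2 := by
    intro v
    rw [← (hP v).tsum_eq]
    exact tsum_sub_le (fun p : J × N => ((p.1 : Y), p.2)) hinj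
      (fun p : Y × N => ⟪v, w p.1 p.2⟫_ℝ ^ 2) (hP v).summable (fun p => sq_nonneg _)
  obtain ⟨T, hT⟩ := exists_analysis (fun p : J × N => w p.1 p.2) hs hle
  let K : Z →L[ℝ] Z := (ContinuousLinearMap.adjoint T).comp T
  have hK : ∀ u v, ⟪K u, v⟫_ℝ = ⟪T u, T v⟫_ℝ := fun u v => by
    simp only [K, ContinuousLinearMap.comp_apply, ContinuousLinearMap.adjoint_inner_left]
  have hTinj : ∀ z, T z = 0 → z = 0 := by
    intro z hz
    apply hJ
    intro j hj n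
    have h1 := hT z z
    rw [hz, inner_zero_left] at h1
    have h2 := (hasSum_zero_iff_of_nonneg (fun p => mul_self_nonneg _)).1 h1
    have h3 := congrFun h2 (⟨j, hj⟩, n)
    exact mul_self_eq_zero.1 h3
  have hdense : (LinearMap.range K.toLinearMap).topologicalClosure = ⊤ := by
    rw [Submodule.topologicalClosure_eq_top_iff, Submodule.eq_bot_iff]
    intro z hz
    apply hTinj
    have h1 : ⟪K z, z⟫_ℝ = 0 := hz (K z) ⟨z, rfl⟩
    rw [hK, real_inner_self_eq_norm_sq] at h1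
    exact norm_eq_zero.1 ((pow_eq_zero_iff two_ne_zero).1 h1)
  -- choose resolvents
  choose R hR using fun ε : {ε : ℝ // 0 < ε} => exists_resolvent T ε.1 ε.2
  have hRn : ∀ ε u, ε.1 * ‖R ε u‖ ≤ ‖u‖ := by
    intro ε u
    have h1 := hR ε u (R ε u)
    rw [real_inner_self_eq_norm_sq, real_inner_self_eq_norm_sq] at h1
    have h2 := real_inner_le_norm u (R ε u)
    have h3 := sq_nonneg ‖T (R ε u)‖
    rcases eq_or_lt_of_le (norm_nonneg (R ε u)) with h4 | h4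
    · rw [← h4, mul_zero]; exact norm_nonneg _
    · have h5 : (ε.1 * ‖R ε u‖) * ‖R ε u‖ ≤ ‖u‖ * ‖R ε u‖ := by nlinarith
      exact le_of_mul_le_mul_right h5 h4
  have hRK : ∀ ε v, R ε (K v) = v - ε.1 • R ε v := by
    intro ε v
    have h1 : ∀ x, ⟪K (R ε x) + ε.1 • R ε x, x⟫_ℝ = ⟪x, x⟫_ℝ := by
      intro x
      rw [inner_add_left, real_inner_smul_left, hK]
      exact hR ε x x
    have h2 : ∀ x, K (R ε x) + ε.1 • R ε x = x := by
      intro x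
      apply ext_inner_right ℝ
      intro y
      rw [inner_add_left, real_inner_smul_left, hK]
      exact hR ε x y
    -- injectivity of K + ε
    have h3 : ∀ x, K x + ε.1 • x = 0 → x = 0 := by
      intro x hx
      have h4 : ⟪K x + ε.1 • x, x⟫_ℝ = 0 := by rw [hx, inner_zero_left]
      rw [inner_add_left, real_inner_smul_left, hK, real_inner_self_eq_norm_sq,
        real_inner_self_eq_norm_sq] at h4
      have h5 := sq_nonneg ‖T x‖
      have h6 : ‖x‖ ^ 2 = 0 := by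
        have h7 := sq_nonneg ‖x‖
        by_contra hcon
        have h8 : 0 < ‖x‖ ^ 2 := lt_of_le_of_ne h7 (Ne.symm hcon)
        have := mul_pos ε.2 h8
        linarith
      exact norm_eq_zero.1 ((pow_eq_zero_iff two_ne_zero).1 h6)
    have h4 : K (R ε (K v) - (v - ε.1 • R ε v)) + ε.1 • (R ε (K v) - (v - ε.1 • R ε v)) = 0 := by
      have h5 := h2 (K v)
      have h6 := h2 v
      rw [map_sub, map_sub, map_smul, smul_sub, smul_sub]
      have h7 : K (R ε v) = v - ε.1 • R ε v := by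
        rw [eq_sub_iff_add_eq]; exact h6
      rw [h7, smul_sub]
      have h8 : K (R ε (K v)) + ε.1 • R ε (K v) = K v := h5
      calc K (R ε (K v)) - (K v - (ε.1 • v - ε.1 • ε.1 • R ε v)) +
            (ε.1 • R ε (K v) - (ε.1 • v - ε.1 • ε.1 • R ε v))
          = (K (R ε (K v)) + ε.1 • R ε (K v)) - K v := by abel
        _ = 0 := by rw [h8, sub_self]
    exact sub_eq_zero.1 (h3 _ h4)
  have hlim : ∀ u : Z, ∀ δ : ℝ, 0 < δ → ∃ ε₀ : ℝ, 0 < ε₀ ∧ ∀ ε : {ε : ℝ // 0 < ε}, ε.1 < ε₀ →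
      ε.1 * ⟪R ε u, u⟫_ℝ ≤ δ := by
    intro u δ hδ
    have hδ' : 0 < δ / (2 * (‖u‖ + 1)) := by positivity
    have hu : u ∈ (LinearMap.range K.toLinearMap).topologicalClosure := by rw [hdense]; trivial
    obtain ⟨b, ⟨v, rfl⟩, hb⟩ := Metric.mem_closure_iff.1 hu _ hδ'
    refine ⟨δ / (4 * (‖u‖ + 1) * (‖v‖ + 1)), by positivity, ?_⟩
    intro ε hε
    have h1 : R ε u = R ε (u - K v) + (v - ε.1 • R ε v) := by
      rw [← hRK, ← map_add, sub_add_cancel]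
    have h2 : ε.1 * ‖R ε u‖ ≤ δ / (2 * (‖u‖ + 1)) + 2 * ε.1 * ‖v‖ := by
      have h3 : ‖R ε u‖ ≤ ‖R ε (u - K v)‖ + (‖v‖ + ε.1 * ‖R ε v‖) := by
        rw [h1]
        refine (norm_add_le _ _).trans ?_
        gcongr
        refine (norm_sub_le _ _).trans ?_
        rw [norm_smul, Real.norm_eq_abs, abs_of_pos ε.2]
      have h4 := hRn ε (u - K v)
      have h5 := hRn ε v
      have h6 : ‖u - K v‖ ≤ δ / (2 * (‖u‖ + 1)) := by
        rw [← dist_eq_norm]; exact le_of_lt hb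
      have h7 := mul_le_mul_of_nonneg_left h3 (le_of_lt ε.2)
      have h8 := mul_le_mul_of_nonneg_left h5 (le_of_lt ε.2)
      nlinarith
    have h3 : ε.1 * ⟪R ε u, u⟫_ℝ ≤ ε.1 * (‖R ε u‖ * ‖u‖) :=
      mul_le_mul_of_nonneg_left (real_inner_le_norm _ _) (le_of_lt ε.2)
    have h4 : ε.1 * (‖R ε u‖ * ‖u‖) ≤ (δ / (2 * (‖u‖ + 1)) + 2 * ε.1 * ‖v‖) * ‖u‖ := by
      rw [← mul_assoc]
      exact mul_le_mul_of_nonneg_right h2 (norm_nonneg _)
    have h5 : (δ / (2 * (‖u‖ + 1))) * ‖u‖ ≤ δ / 2 := by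
      rw [div_mul_eq_mul_div, div_le_div_iff₀ (by positivity) (by positivity)]
      have := norm_nonneg u
      nlinarith
    have h6 : 2 * ε.1 * ‖v‖ * ‖u‖ ≤ δ / 2 := by
      have h7 : ε.1 * (4 * (‖u‖ + 1) * (‖v‖ + 1)) < δ := by
        rwa [lt_div_iff₀ (by positivity)] at hε
      have h8 := norm_nonneg u
      have h9 := norm_nonneg v
      have h10 := ε.2
      have h11 : ε.1 * (‖v‖ * ‖u‖) ≤ ε.1 * ((‖u‖ + 1) * (‖v‖ + 1)) := by
        apply mul_le_mul_of_nonneg_left _ h10.le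
        nlinarith
      nlinarith
    calc ε.1 * ⟪R ε u, u⟫_ℝ ≤ (δ / (2 * (‖u‖ + 1)) + 2 * ε.1 * ‖v‖) * ‖u‖ := h3.trans h4
      _ = (δ / (2 * (‖u‖ + 1))) * ‖u‖ + 2 * ε.1 * ‖v‖ * ‖u‖ := by ring
      _ ≤ δ / 2 + δ / 2 := add_le_add h5 h6
      _ = δ := by ring
  apply le_of_forall_pos_le_add
  intro δ hδ
  have hδ' : 0 < δ / (Y0.card + 1) := by positivity
  choose ε₀ hε₀ hε₀' using fun y : Y => hlim (w y 1) _ hδ'
  obtain ⟨ε, hε, hεy⟩ := exists_pos_lt Y0 ε₀ hε₀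
  have h1 := resolvent_ineq w U hU hP J T hT ε hε (R ⟨ε, hε⟩) (hR ⟨ε, hε⟩) Y0
  have h2 : ∑ y ∈ Y0, (ε * ⟪R ⟨ε, hε⟩ (w y 1), w y 1⟫_ℝ) ≤ δ := by
    calc ∑ y ∈ Y0, (ε * ⟪R ⟨ε, hε⟩ (w y 1), w y 1⟫_ℝ) ≤ ∑ y ∈ Y0, δ / (Y0.card + 1) :=
          Finset.sum_le_sum fun y hy => hε₀' y ⟨ε, hε⟩ (hεy y hy)
      _ = Y0.card * (δ / (Y0.card + 1)) := by rw [Finset.sum_const, nsmul_eq_mul]
      _ ≤ δ := by
        rw [mul_div_assoc', div_le_iff₀ (by positivity)]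
        nlinarith
  rw [Finset.sum_sub_distrib] at h1
  linarith

end Main

end Pool.Agent.Lib.MP_f3dc04_al
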