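import Pool.Agent.Lib.MP_f3dc04_al.Kazhdan
import Pool.Agent.Lib.MP_f3dc04_al.Trace

/-!
Square summable functions on the edges of a Cayley graph.
-/

namespace Pool.Agent.Lib.MP_f3dc04_al

open scoped InnerProductSpace
open Finsupp

/-- real square summable functions -/
abbrev L2 (X : Type*) := lp (fun _ : X => ℝ) 2

/-- the square summable function attached to a finitely supported function -/
noncomputable def toL2 (X : Type*) : (X →₀ ℝ) →ₗ[ℝ] L2 X where
  toFun e := ⟨⇑e, memℓp_gen (summable_of_ne_finset_zero (s := e.support) (by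
    intro x hx
    rw [notMem_support_iff.1 hx]
    simp))⟩
  map_add' := by
    intro a b
    apply lp.ext
    rfl
  map_smul' := by
    intro c a
    apply lp.ext
    rfl

lemma toL2_apply {X : Type*} (e : X →₀ ℝ) (x : X) : toL2 X e x = e x := rfl

lemma inner_toL2 {X : Type*} (e : X →₀ ℝ) (v : L2 X) :
    ⟪toL2 X e, v⟫_ℝ = e.sum fun x a => a * v x := by
  rw [lp.inner_eq_tsum, tsum_eq_sum (s := e.support)]
  · rw [Finsupp.sum]
    refine Finset.sum_congr rfl fun x _ => ?_
    rw [toL2_apply]
    simp [mul_comm]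
  · intro x hx
    rw [toL2_apply, notMem_support_iff.1 hx, inner_zero_left]

lemma norm_toL2_sq {X : Type*} (e : X →₀ ℝ) :
    ‖toL2 X e‖ ^ 2 = e.sum fun _ a => a ^ 2 := by
  rw [← real_inner_self_eq_norm_sq, inner_toL2]
  refine Finset.sum_congr rfl fun x _ => ?_
  change e x * e x = e x ^ 2
  rw [sq]

lemma norm_sq_hasSum {X : Type*} (v : L2 X) : HasSum (fun x => v x ^ 2) (‖v‖ ^ 2) := by
  have := lp.hasSum_inner (𝕜 := ℝ) (G := fun _ : X => ℝ) v v
  rw [real_inner_self_eq_norm_sq] at this
  have h : (fun x => v x ^ 2) = fun x => ⟪v x, v x⟫_ℝ := by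
    funext x
    rw [real_inner_self_eq_norm_sq, Real.norm_eq_abs, sq_abs]
  rw [h]
  exact this

lemma memL2 {X : Type*} (f : X → ℝ) (h : Summable fun x => f x ^ 2) :
    Memℓp (E := fun _ : X => ℝ) f 2 := by
  apply memℓp_gen
  simpa using h

/-- The linear isometry attached to a permutation. -/
noncomputable def permL2 {X : Type*} (σ : X ≃ X) : L2 X ≃ₗᵢ[ℝ] L2 X where
  toFun v := ⟨fun x => v (σ x), memL2 _
    (summable_sub σ σ.injective (fun x => v x ^ 2) (norm_sq_hasSum v).summable)⟩
  invFun v := ⟨fun x => v (σ.symm x), memL2 _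
    (summable_sub σ.symm σ.symm.injective (fun x => v x ^ 2) (norm_sq_hasSum v).summable)⟩
  left_inv := by
    intro v
    apply lp.ext
    funext x
    change v (σ (σ.symm x)) = v x
    rw [Equiv.apply_symm_apply]
  right_inv := by
    intro v
    apply lp.ext
    funext x
    change v (σ.symm (σ x)) = v x
    rw [Equiv.symm_apply_apply]
  map_add' := by
    intro a b
    apply lp.ext
    rfl
  map_smul' := by
    intro c a
    apply lp.ext
    rfl
  norm_map' := by
    intro v
    apply (pow_left_inj₀ (norm_nonneg _) (norm_nonneg _) two_ne_zero).1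
    exact (norm_sq_hasSum _).unique (σ.hasSum_iff.2 (norm_sq_hasSum v))

lemma permL2_apply {X : Type*} (σ : X ≃ X) (v : L2 X) (x : X) : permL2 σ v x = v (σ x) := rfl

end Pool.Agent.Lib.MP_f3dc04_al
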