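import Pool.Agent.Lib.MP_f3dc04_al.FreeRes

/-!
Lifting properties of groups with the lower central quotients of a free group.
-/

namespace Pool.Agent.Lib.MP_f3dc04_al

open Subgroup
open scoped commutatorElement

universe u v

/-- `P` has the same lower central quotients as the free group on `α`. -/
def SameNilp (P : Type u) [Group P] (α : Type v) : Prop :=
  ∀ n : ℕ, Nonempty (P ⧸ (⊤ : Subgroup P).lowerCentralSeries n ≃*
    FreeGroup α ⧸ (⊤ : Subgroup (FreeGroup α)).lowerCentralSeries n)

/-- Homomorphisms to nilpotent groups lift along surjections. -/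
lemma lift_nilp {P : Type u} [Group P] {α : Type v} (h : SameNilp P α) {E E₂ : Type*} [Group E]
    [Group E₂] (c : ℕ) (hE : (⊤ : Subgroup E).lowerCentralSeries c = ⊥) (f : E →* E₂)
    (hf : Function.Surjective f) (φ : P →* E₂) : ∃ ψ : P →* E, f.comp ψ = φ := by
  obtain ⟨θ⟩ := h c
  have hE₂ : (⊤ : Subgroup E₂).lowerCentralSeries c = ⊥ := by
    have := Subgroup.map_lowerCentralSeries (⊤ : Subgroup E) f c
    rw [hE, Subgroup.map_bot, Subgroup.map_top_of_surjective f hf] at this
    exact this.symm
  let mkP := QuotientGroup.mk' ((⊤ : Subgroup P).lowerCentralSeries c)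
  let mkF := QuotientGroup.mk' ((⊤ : Subgroup (FreeGroup α)).lowerCentralSeries c)
  have hmkF : Function.Surjective mkF := QuotientGroup.mk'_surjective _
  let φ' : P ⧸ (⊤ : Subgroup P).lowerCentralSeries c →* E₂ :=
    QuotientGroup.lift _ φ (by
      intro g hg
      have := map_lcs_le φ c g hg
      rwa [hE₂, mem_bot] at this)
  let φF : FreeGroup α →* E₂ := (φ'.comp θ.symm.toMonoidHom).comp mkF
  choose g hg using fun a : α => hf (φF (FreeGroup.of a))
  let ψF : FreeGroup α →* E := FreeGroup.lift g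
  have hψF : f.comp ψF = φF := by
    apply FreeGroup.ext_hom
    intro a
    simp [ψF, hg]
  let ψ' : FreeGroup α ⧸ (⊤ : Subgroup (FreeGroup α)).lowerCentralSeries c →* E :=
    QuotientGroup.lift _ ψF (by
      intro u hu
      have := map_lcs_le ψF c u hu
      rwa [hE, mem_bot] at this)
  refine ⟨(ψ'.comp θ.toMonoidHom).comp mkP, ?_⟩
  ext x
  obtain ⟨u, hu⟩ := hmkF (θ (mkP x))
  have h1 : ((ψ'.comp θ.toMonoidHom).comp mkP) x = ψF u := by
    change ψ' (θ (mkP x)) = ψF u
    rw [← hu]; rfl
  rw [MonoidHom.comp_apply, h1]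
  have h2 : f (ψF u) = φF u := DFunLike.congr_fun hψF u
  rw [h2]
  change φ' (θ.symm (mkF u)) = φ x
  rw [hu, MulEquiv.symm_apply_apply]
  rfl

/-- A nontrivial normal subgroup of a finite `p`-group contains a central element of order `p`. -/
lemma exists_central (p : ℕ) [hp : Fact p.Prime] {E : Type*} [Group E] [Finite E]
    (hE : IsPGroup p E) (K : Subgroup E) [hK : K.Normal] (hK1 : K ≠ ⊥) :
    ∃ z ∈ K, z ∈ center E ∧ z ≠ 1 ∧ z ^ p = 1 := by
  have hfix := (hE.of_equiv ConjAct.toConjAct).exists_fixed_point_of_prime_dvd_card_of_fixed_point K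
  have hKn : Nontrivial K := by
    rw [Subgroup.nontrivial_iff_ne_bot]; exact hK1
  have hdvd : p ∣ Nat.card K := by
    obtain ⟨n, hn0, hn⟩ := (hE.to_subgroup K).nontrivial_iff_card.mp inferInstance
    exact hn.symm ▸ dvd_pow_self _ (ne_of_gt hn0)
  have h1 : (1 : K) ∈ MulAction.fixedPoints (ConjAct E) K := by
    intro g; exact smul_one g
  obtain ⟨b, hb, hb1⟩ := hfix hdvd h1
  have hbc : (b : E) ∈ center E := by
    rw [mem_center_iff]
    intro g
    have := congrArg Subtype.val (hb (ConjAct.toConjAct g))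
    rw [ConjAct.Subgroup.val_conj_smul, ConjAct.smul_def, ConjAct.ofConjAct_toConjAct] at this
    rw [mul_inv_eq_iff_eq_mul] at this
    exact this
  have hbne : (b : E) ≠ 1 := by
    intro h
    apply hb1
    apply Subtype.ext
    exact h.symm
  obtain ⟨k, hk⟩ := (IsPGroup.iff_orderOf.1 hE) (b : E)
  have hk0 : k ≠ 0 := by
    rintro rfl
    rw [pow_zero, orderOf_eq_one_iff] at hk
    exact hbne hk
  obtain ⟨k, rfl⟩ := Nat.exists_eq_succ_of_ne_zero hk0
  refine ⟨(b : E) ^ p ^ k, K.pow_mem b.2 _, (center E).pow_mem hbc _, ?_, ?_⟩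
  · intro h
    have := orderOf_dvd_of_pow_eq_one h
    rw [hk] at this
    have := Nat.le_of_dvd (pow_pos hp.out.pos _) this
    exact absurd this (not_le.2 (Nat.pow_lt_pow_right hp.out.one_lt (Nat.lt_succ_self k)))
  · rw [← pow_mul, ← pow_succ, ← Nat.succ_eq_add_one, ← hk, pow_orderOf_eq_one]

/-- Lifting with prescribed values on a family which is independent modulo `p`. -/
lemma lift_star {P : Type u} [Group P] {α : Type v} (h : SameNilp P α) (p : ℕ) [hp : Fact p.Prime]
    {ι : Type*} (x : ι → P)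
    (hx : ∀ c : ι → Multiplicative (ZMod p), ∃ χ : P →* Multiplicative (ZMod p), ∀ i, χ (x i) = c i)
    {E₂ : Type} [Group E₂] (φ : P →* E₂) :
    ∀ (m : ℕ) (E : Type) [Group E] [Finite E], IsPGroup p E → Nat.card E = m →
      ∀ (f : E →* E₂), Function.Surjective f → ∀ (e : ι → E), (∀ i, f (e i) = φ (x i)) →
        ∃ ψ : P →* E, f.comp ψ = φ ∧ ∀ i, ψ (x i) = e i := by
  intro m
  induction m using Nat.strong_induction_on with
  | _ m ih =>
  intro E _ _ hE hm f hf e he
  by_cases hinj : f.ker = ⊥
  · let F : E ≃* E₂ := MulEquiv.ofBijective f ⟨(MonoidHom.ker_eq_bot_iff f).1 hinj, hf⟩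
    refine ⟨F.symm.toMonoidHom.comp φ, ?_, ?_⟩
    · ext y
      exact F.apply_symm_apply (φ y)
    · intro i
      change F.symm (φ (x i)) = e i
      rw [← he i]
      exact F.symm_apply_apply (e i)
  · obtain ⟨z, hzK, hzc, hz1, hzp⟩ := exists_central p hE f.ker hinj
    let Z : Subgroup E := zpowers z
    have hZc : Z ≤ center E := by rw [zpowers_le]; exact hzc
    have hZn : Z.Normal := by
      refine ⟨fun a ha g => ?_⟩
      have := mem_center_iff.1 (hZc ha) g
      rw [this, mul_inv_cancel_right]; exact ha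
    have hZK : Z ≤ f.ker := by rw [zpowers_le]; exact hzK
    have hlt : Nat.card (E ⧸ Z) < m := by
      have h1 := Subgroup.card_eq_card_quotient_mul_card_subgroup Z
      have h2 : 1 < Nat.card Z := by
        rw [Finite.one_lt_card_iff_nontrivial, Subgroup.nontrivial_iff_ne_bot]
        intro h3
        have : z ∈ Z := mem_zpowers z
        rw [h3, mem_bot] at this
        exact hz1 this
      have h3 : 0 < Nat.card (E ⧸ Z) := Nat.card_pos
      rw [hm] at h1
      rw [h1]
      nlinarith
    let f' : E ⧸ Z →* E₂ := QuotientGroup.lift Z f (fun a ha => hZK ha)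
    have hf' : Function.Surjective f' := by
      intro y
      obtain ⟨a, ha⟩ := hf y
      exact ⟨(a : E ⧸ Z), ha⟩
    obtain ⟨ψ', hψ', hψe⟩ := ih _ hlt (E ⧸ Z) (hE.to_quotient Z) rfl f' hf'
      (fun i => ((e i : E) : E ⧸ Z)) (fun i => he i)
    obtain ⟨c, hc⟩ := Subgroup.nilpotent_iff_lowerCentralSeries.1 (IsPGroup.isNilpotent hE)
    obtain ⟨ψ₂, hψ₂⟩ := lift_nilp h c hc (QuotientGroup.mk' Z) (QuotientGroup.mk'_surjective Z) ψ'
    have hk : ∀ i, ∃ k : ℤ, z ^ k = (ψ₂ (x i))⁻¹ * e i := by
      intro i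
      have h1 : ((ψ₂ (x i) : E) : E ⧸ Z) = (e i : E) := by
        have := DFunLike.congr_fun hψ₂ (x i)
        rw [hψe i] at this
        exact this
      rw [QuotientGroup.eq] at h1
      exact mem_zpowers_iff.1 h1
    choose k hk using hk
    obtain ⟨χ, hχ⟩ := hx (fun i => Multiplicative.ofAdd ((k i : ℤ) : ZMod p))
    let ζ : Multiplicative (ZMod p) →* E :=
      { toFun := fun a => z ^ (Multiplicative.toAdd a).val
        map_one' := by simp
        map_mul' := by
          intro a b
          rw [← pow_add, toAdd_mul, ZMod.val_add]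
          conv_rhs => rw [← Nat.mod_add_div ((Multiplicative.toAdd a).val +
            (Multiplicative.toAdd b).val) p]
          rw [pow_add, pow_mul, hzp, one_pow, mul_one] }
    have hζc : ∀ a, ζ a ∈ center E := fun a => (center E).pow_mem hzc _
    have hζK : ∀ a, f (ζ a) = 1 := fun a => f.ker.pow_mem hzK _
    have hζk : ∀ n : ℤ, ζ (Multiplicative.ofAdd ((n : ℤ) : ZMod p)) = z ^ n := by
      intro n
      change z ^ ((n : ZMod p)).val = z ^ n
      rw [← zpow_natCast, ZMod.val_intCast]
      conv_rhs => rw [← Int.emod_add_mul_ediv n p]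
      rw [zpow_add, zpow_mul, zpow_natCast, hzp, one_zpow, mul_one]
    refine ⟨
      { toFun := fun g => ψ₂ g * ζ (χ g)
        map_one' := by simp
        map_mul' := by
          intro a b
          rw [map_mul, map_mul, map_mul]
          have := mem_center_iff.1 (hζc (χ a)) (ψ₂ b)
          calc ψ₂ a * ψ₂ b * (ζ (χ a) * ζ (χ b)) = ψ₂ a * (ψ₂ b * ζ (χ a)) * ζ (χ b) := by group
            _ = ψ₂ a * (ζ (χ a) * ψ₂ b) * ζ (χ b) := by rw [this]
            _ = ψ₂ a * ζ (χ a) * (ψ₂ b * ζ (χ b)) := by group }, ?_, ?_⟩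
    · ext g
      change f (ψ₂ g * ζ (χ g)) = φ g
      rw [map_mul, hζK, mul_one]
      have h1 : f (ψ₂ g) = f' ((ψ₂ g : E) : E ⧸ Z) := rfl
      have h2 : ((ψ₂ g : E) : E ⧸ Z) = ψ' g := DFunLike.congr_fun hψ₂ g
      rw [h1, h2]
      exact DFunLike.congr_fun hψ' g
    · intro i
      change ψ₂ (x i) * ζ (χ (x i)) = e i
      rw [hχ i, hζk, hk i, mul_inv_cancel_left]

/-- translation action of a group on functions -/
def transAct (Q : Type) [Group Q] (A : Type) [AddCommGroup A] :
    Q →* MulAut (Multiplicative (Q → A)) where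
  toFun g :=
    { toFun := fun m => Multiplicative.ofAdd fun y => Multiplicative.toAdd m (g⁻¹ * y)
      invFun := fun m => Multiplicative.ofAdd fun y => Multiplicative.toAdd m (g * y)
      left_inv := by
        intro m
        apply Multiplicative.toAdd.injective
        funext y
        simp
      right_inv := by
        intro m
        apply Multiplicative.toAdd.injective
        funext y
        simp
      map_mul' := fun _ _ => rfl }
  map_one' := by
    apply MulEquiv.ext
    intro m
    apply Multiplicative.toAdd.injective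
    funext y
    simp
  map_mul' := by
    intro a b
    apply MulEquiv.ext
    intro m
    apply Multiplicative.toAdd.injective
    funext y
    simp [mul_assoc]

/-- Existence of many derivations, in the form of potentials. -/
lemma exists_potential {P : Type u} [Group P] {α : Type v} (h : SameNilp P α) (p : ℕ)
    [hp : Fact p.Prime] {ι : Type*} (x : ι → P)
    (hx : ∀ c : ι → Multiplicative (ZMod p), ∃ χ : P →* Multiplicative (ZMod p), ∀ i, χ (x i) = c i)
    (Q : Type) [Group Q] [Finite Q] (hQ : IsPGroup p Q) (q : P →* Q) (j : ℕ)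
    (m : ι → Q → ZMod (p ^ j)) :
    ∃ (f : P → ZMod (p ^ j)) (b : P → Q → ZMod (p ^ j)),
      (∀ g y, f y - f (g⁻¹ * y) = b g (q y)) ∧ ∀ i, b (x i) = m i := by
  have : NeZero (p ^ j) := ⟨pow_ne_zero _ hp.out.ne_zero⟩
  let M := Multiplicative (Q → ZMod (p ^ j))
  let E := M ⋊[transAct Q (ZMod (p ^ j))] Q
  have : Finite E := Finite.of_equiv (M × Q) SemidirectProduct.equivProd.symm
  have hE : IsPGroup p E := by
    obtain ⟨a, ha⟩ := (IsPGroup.iff_card).1 hQ
    have : Fintype Q := Fintype.ofFinite Q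
    have hM : Nat.card M = p ^ (j * Fintype.card Q) := by
      rw [Nat.card_congr (Multiplicative.toAdd : M ≃ (Q → ZMod (p ^ j))), Nat.card_fun,
        Nat.card_zmod, Nat.card_eq_fintype_card, pow_mul]
    apply IsPGroup.of_card (n := j * Fintype.card Q + a)
    rw [SemidirectProduct.card, hM, ha, pow_add]
  obtain ⟨ψ, hψ, hψx⟩ := lift_star h p x hx q (Nat.card E) E hE rfl SemidirectProduct.rightHom
    SemidirectProduct.rightHom_surjective
    (fun i => ⟨Multiplicative.ofAdd (m i), q (x i)⟩) (fun i => rfl)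
  have hright : ∀ g, (ψ g).right = q g := fun g => DFunLike.congr_fun hψ g
  let b : P → Q → ZMod (p ^ j) := fun g => Multiplicative.toAdd (ψ g).left
  have hb : ∀ g k y, b (g * k) y = b g y + b k ((q g)⁻¹ * y) := by
    intro g k y
    change Multiplicative.toAdd (ψ (g * k)).left y = _
    rw [map_mul, SemidirectProduct.mul_left, hright]
    rfl
  refine ⟨fun y => b y (q y), b, ?_, ?_⟩
  · intro g y
    have h1 := hb g (g⁻¹ * y) (q y)
    rw [mul_inv_cancel_left, ← map_inv, ← map_mul] at h1
    change b y (q y) - b (g⁻¹ * y) (q (g⁻¹ * y)) = b g (q y)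
    rw [h1]; ring
  · intro i
    change Multiplicative.toAdd (ψ (x i)).left = m i
    rw [hψx i]; rfl

end Pool.Agent.Lib.MP_f3dc04_al
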