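import Pool.Agent.Lib.MP_f3dc04_al.Harm

/-!
Normal subgroups of groups with the lower central quotients of a free group.
-/

namespace Pool.Agent.Lib.MP_f3dc04_al

open Subgroup Finsupp

universe u v

/-- Residual nilpotence, in elementary form. -/
def ResNilp (P : Type u) [Group P] : Prop :=
  ∀ g : P, (∀ n : ℕ, g ∈ (⊤ : Subgroup P).lowerCentralSeries n) → g = 1

section

variable {P : Type u} [Group P] {α : Type v}

lemma res_p (hres : ResNilp P) (h : SameNilp P α) (p : ℕ) [hp : Fact p.Prime] (g : P)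
    (hg : g ≠ 1) : ∃ (E : Type) (_ : Group E) (_ : Finite E) (φ : P →* E),
      IsPGroup p E ∧ φ g ≠ 1 := by
  have h1 : ∃ n, g ∉ (⊤ : Subgroup P).lowerCentralSeries n := by
    by_contra hcon
    push Not at hcon
    exact hg (hres g hcon)
  obtain ⟨n, hn⟩ := h1
  obtain ⟨θ⟩ := h n
  let mkP := QuotientGroup.mk' ((⊤ : Subgroup P).lowerCentralSeries n)
  let mkF := QuotientGroup.mk' ((⊤ : Subgroup (FreeGroup α)).lowerCentralSeries n)
  obtain ⟨w, hw⟩ := QuotientGroup.mk'_surjective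
    ((⊤ : Subgroup (FreeGroup α)).lowerCentralSeries n) (θ (mkP g))
  have hwn : w ∉ (⊤ : Subgroup (FreeGroup α)).lowerCentralSeries n := by
    intro hcon
    have h2 : mkF w = 1 := (QuotientGroup.eq_one_iff w).2 hcon
    have h3 : θ (mkP g) = 1 := by rw [← hw]; exact h2
    have h4 : mkP g = 1 := by
      rw [← map_one θ] at h3
      exact θ.injective h3
    exact hn ((QuotientGroup.eq_one_iff g).1 h4)
  obtain ⟨E, iE, fE, φ, hE, hker, hne⟩ := resP_lcs p α n w hwn
  let φ' : FreeGroup α ⧸ (⊤ : Subgroup (FreeGroup α)).lowerCentralSeries n →* E :=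
    QuotientGroup.lift _ φ hker
  refine ⟨E, iE, fE, (φ'.comp θ.toMonoidHom).comp mkP, hE, ?_⟩
  intro hcon
  apply hne
  have h5 : φ' (θ (mkP g)) = 1 := hcon
  rw [← hw] at h5
  exact h5

lemma res_p_finset (hres : ResNilp P) (h : SameNilp P α) (p : ℕ) [hp : Fact p.Prime]
    (D : Finset P) (hD : ∀ d ∈ D, d ≠ 1) : ∃ (E : Type) (_ : Group E) (_ : Finite E) (φ : P →* E),
      IsPGroup p E ∧ ∀ d ∈ D, φ d ≠ 1 := by
  classical
  induction D using Finset.induction_on with
  | empty =>
    refine ⟨Unit, inferInstance, inferInstance, 1, ?_, fun d hd => absurd hd (Finset.notMem_empty _)⟩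
    intro g
    exact ⟨0, rfl⟩
  | insert a s _ ih =>
    obtain ⟨E, iE, fE, φ, hE, hφ⟩ := ih fun d hd => hD d (Finset.mem_insert_of_mem hd)
    obtain ⟨E', iE', fE', φ', hE', hφ'⟩ := res_p hres h p a (hD a (Finset.mem_insert_self _ _))
    refine ⟨E × E', inferInstance, inferInstance, φ.prod φ', ?_, ?_⟩
    · obtain ⟨m, hm⟩ := IsPGroup.iff_card.1 hE
      obtain ⟨m', hm'⟩ := IsPGroup.iff_card.1 hE'
      apply IsPGroup.of_card (n := m + m')
      rw [Nat.card_prod, hm, hm', pow_add]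
    · intro d hd hcon
      rcases Finset.mem_insert.1 hd with rfl | hd
      · exact hφ' (congrArg Prod.snd hcon)
      · exact hφ d hd (congrArg Prod.fst hcon)

lemma res_p_inj (hres : ResNilp P) (h : SameNilp P α) (p : ℕ) [hp : Fact p.Prime]
    (F : Finset P) : ∃ (Q : Type) (_ : Group Q) (_ : Finite Q) (q : P →* Q),
      IsPGroup p Q ∧ Function.Surjective q ∧ Set.InjOn q F := by
  classical
  obtain ⟨E, iE, fE, φ, hE, hφ⟩ := res_p_finset hres h p
    (((F ×ˢ F).image fun z => z.1⁻¹ * z.2).erase 1) (fun d hd => (Finset.mem_erase.1 hd).1)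
  refine ⟨φ.range, inferInstance, inferInstance, φ.rangeRestrict, hE.to_subgroup _,
    φ.rangeRestrict_surjective, ?_⟩
  intro a ha b hb hab
  by_contra hne
  apply hφ (a⁻¹ * b)
  · refine Finset.mem_erase.2 ⟨?_, Finset.mem_image.2 ⟨(a, b), Finset.mem_product.2 ⟨ha, hb⟩, rfl⟩⟩
    intro h1
    exact hne (inv_mul_eq_one.1 h1)
  · have h1 : φ a = φ b := congrArg Subtype.val hab
    rw [map_mul, map_inv, h1, inv_mul_cancel]

lemma torsion_free (hres : ResNilp P) (h : SameNilp P α) (g : P) (hg : g ≠ 1) (k : ℕ)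
    (hk : g ^ k = 1) : k = 0 := by
  by_contra hk0
  have hfin : IsOfFinOrder g := isOfFinOrder_iff_pow_eq_one.2 ⟨k, Nat.pos_of_ne_zero hk0, hk⟩
  have hord : orderOf g ≠ 1 := by rwa [Ne, orderOf_eq_one_iff]
  have hpos : 0 < orderOf g := hfin.orderOf_pos
  obtain ⟨l, hl, hdvd⟩ := Nat.exists_prime_and_dvd hord
  obtain ⟨m, hm⟩ := hdvd
  have hg' : g ^ m ≠ 1 := by
    intro hcon
    have h1 := orderOf_dvd_of_pow_eq_one hcon
    have hm0 : 0 < m := by
      rcases Nat.eq_zero_or_pos m with rfl | h2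
      · rw [mul_zero] at hm; omega
      · exact h2
    have h2 := Nat.le_of_dvd hm0 h1
    have h3 := hl.two_le
    rw [hm] at h2
    nlinarith
  have hgl : (g ^ m) ^ l = 1 := by
    rw [← pow_mul, mul_comm, ← hm, pow_orderOf_eq_one]
  obtain ⟨p, hp, hpl⟩ : ∃ p : ℕ, p.Prime ∧ p ≠ l := by
    by_cases h2 : l = 2
    · exact ⟨3, Nat.prime_three, by omega⟩
    · exact ⟨2, Nat.prime_two, fun h3 => h2 h3.symm⟩
  have : Fact p.Prime := ⟨hp⟩
  obtain ⟨E, iE, fE, φ, hE, hφ⟩ := res_p hres h p (g ^ m) hg'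
  obtain ⟨j, hj⟩ := hE (φ (g ^ m))
  apply hφ
  have h4 : orderOf (φ (g ^ m)) ∣ p ^ j := orderOf_dvd_of_pow_eq_one hj
  have h5 : orderOf (φ (g ^ m)) ∣ l := by
    apply orderOf_dvd_of_pow_eq_one
    rw [← map_pow, hgl, map_one]
  have h6 : Nat.Coprime (p ^ j) l := Nat.Coprime.pow_left _ ((Nat.coprime_primes hp hl).2 hpl)
  have h7 := Nat.eq_one_of_dvd_coprimes h6 h4 h5
  exact orderOf_eq_one_iff.1 h7

lemma exists_indep (h : SameNilp P α) {r : ℕ} (a : Fin r ↪ α) :
    ∃ x : Fin r → P, ∀ (p : ℕ) [Fact p.Prime] (c : Fin r → Multiplicative (ZMod p)),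
      ∃ χ : P →* Multiplicative (ZMod p), ∀ i, χ (x i) = c i := by
  classical
  obtain ⟨θ⟩ := h 1
  let mkP := QuotientGroup.mk' ((⊤ : Subgroup P).lowerCentralSeries 1)
  let mkF := QuotientGroup.mk' ((⊤ : Subgroup (FreeGroup α)).lowerCentralSeries 1)
  have hmkP : Function.Surjective mkP := QuotientGroup.mk'_surjective _
  choose x hx using fun i : Fin r => hmkP (θ.symm (mkF (FreeGroup.of (a i))))
  refine ⟨x, ?_⟩
  intro p _ c
  let χF : FreeGroup α →* Multiplicative (ZMod p) :=
    FreeGroup.lift fun b => if hb : ∃ i, a i = b then c hb.choose else 1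
  have hχF : ∀ i, χF (FreeGroup.of (a i)) = c i := by
    intro i
    have hb : ∃ j, a j = a i := ⟨i, rfl⟩
    simp only [χF, FreeGroup.lift_apply_of]
    rw [dif_pos hb, a.injective hb.choose_spec]
  have hker : ∀ w ∈ (⊤ : Subgroup (FreeGroup α)).lowerCentralSeries 1, χF w = 1 := by
    intro w hw
    have h1 := map_lcs_le χF 1 w hw
    have h2 : (⊤ : Subgroup (Multiplicative (ZMod p))).lowerCentralSeries 1 = ⊥ := by
      rw [eq_bot_iff]
      rw [Subgroup.lowerCentralSeries_succ, Subgroup.commutator_le]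
      intro a _ b _
      rw [mem_bot, commutatorElement_eq_one_iff_mul_comm, mul_comm]
    rwa [h2, mem_bot] at h1
  let χ' : FreeGroup α ⧸ (⊤ : Subgroup (FreeGroup α)).lowerCentralSeries 1 →*
      Multiplicative (ZMod p) := QuotientGroup.lift _ χF hker
  refine ⟨(χ'.comp θ.toMonoidHom).comp mkP, fun i => ?_⟩
  change χ' (θ (mkP (x i))) = c i
  rw [hx, MulEquiv.apply_symm_apply, ← hχF i]
  rfl

/-- The main inequality. -/
theorem main_ineq (hres : ResNilp P) (h : SameNilp P α) (N : Subgroup P) [hNn : N.Normal]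
    (hN : N ≠ ⊥) (A : Finset P) (hA : closure (A : Set P) = N) {r : ℕ} (hr : 1 ≤ r)
    (a : Fin r ↪ α) (T : Finset (P ⧸ N)) : (T.card : ℝ) * ((r : ℝ) - 1) ≤ (A.card : ℝ) - 1 := by
  classical
  obtain ⟨x, hx⟩ := exists_indep h a
  let ι := A ⊕ (Fin r ⊕ T)
  let S' : ι → P := Sum.elim (fun a => (a : P)) (Sum.elim x (fun t => (t : P ⧸ N).out))
  let Γ : Subgroup P := closure (Set.range S')
  let S : ι → Γ := fun i => ⟨S' i, subset_closure ⟨i, rfl⟩⟩
  have hS : closure (Set.range S) = ⊤ := by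
    have h1 : Set.range S = ((↑) : Γ → P) ⁻¹' (Set.range S') := by
      ext y
      constructor
      · rintro ⟨i, rfl⟩
        exact ⟨i, rfl⟩
      · rintro ⟨i, hi⟩
        exact ⟨i, Subtype.ext hi⟩
    rw [h1]
    exact closure_closure_coe_preimage
  have hNΓ : N ≤ Γ := by
    rw [← hA]
    apply Subgroup.closure_mono
    intro y hy
    exact ⟨Sum.inl ⟨y, hy⟩, rfl⟩
  let J : Finset ι := Finset.univ.map ⟨Sum.inl, Sum.inl_injective⟩
  have hJcard : J.card = A.card := by
    rw [Finset.card_map]; simp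
  have hJ : closure (S '' (J : Set ι)) = N.subgroupOf Γ := by
    apply map_injective Γ.subtype_injective
    rw [MonoidHom.map_closure, subgroupOf_map_subtype, inf_eq_left.2 hNΓ, ← hA]
    congr 1
    ext y
    constructor
    · rintro ⟨_, ⟨i, hi, rfl⟩, rfl⟩
      simp only [J, Finset.coe_map, Set.mem_image, Function.Embedding.coeFn_mk] at hi
      obtain ⟨b, _, rfl⟩ := hi
      exact b.2
    · intro hy
      refine ⟨S (Sum.inl ⟨y, hy⟩), ⟨Sum.inl ⟨y, hy⟩, ?_, rfl⟩, rfl⟩
      simp [J]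
  obtain ⟨a₀, ha₀, ha₀1⟩ : ∃ a₀ ∈ A, a₀ ≠ 1 := by
    by_contra hcon
    push Not at hcon
    apply hN
    rw [← hA, closure_eq_bot_iff]
    intro y hy
    exact hcon y hy
  let i₀ : ι := Sum.inl ⟨a₀, ha₀⟩
  have hi₀ : i₀ ∈ J := by simp [J, i₀]
  have hinf : ∀ k : ℕ, S i₀ ^ k = 1 → k = 0 := by
    intro k hk
    apply torsion_free hres h a₀ ha₀1
    exact congrArg Subtype.val hk
  have : Fact (Nat.Prime 2) := ⟨Nat.prime_two⟩
  have hkey := key_ineq h 2 hr x (hx 2) (res_p_inj hres h 2) S Γ.subtype Γ.subtype_injective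
    (fun k => Sum.inr (Sum.inl k)) (fun k => rfl) i₀
  have hnorm : (N.subgroupOf Γ).Normal := inferInstance
  let T' : Finset (Γ ⧸ N.subgroupOf Γ) :=
    Finset.univ.image fun t : T => ((S (Sum.inr (Sum.inr t)) : Γ) : Γ ⧸ N.subgroupOf Γ)
  have hT' : T'.card = T.card := by
    rw [Finset.card_image_of_injective]
    · simp
    · intro s t hst
      have h1 := QuotientGroup.eq.1 hst
      have h2 : ((s : P ⧸ N).out)⁻¹ * (t : P ⧸ N).out ∈ N := h1
      have h3 := QuotientGroup.eq.2 h2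
      rw [QuotientGroup.out_eq', QuotientGroup.out_eq'] at h3
      exact Subtype.ext h3
  have hfinal := combine S hS (N.subgroupOf Γ) J hJ i₀ hi₀ hinf ((r : ℝ) - 1) hkey T'
  rw [hT', hJcard] at hfinal
  exact hfinal

/-- The free group on a set with at most one element is cyclic. -/
lemma isCyclic_freeGroup (hα : Subsingleton α) : IsCyclic (FreeGroup α) := by
  rcases isEmpty_or_nonempty α with h0 | ⟨⟨a⟩⟩
  · have : Subsingleton (FreeGroup α) := inferInstance
    exact isCyclic_of_subsingleton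
  · refine ⟨FreeGroup.of a, fun g => ?_⟩
    have h1 := FreeGroup.closure_range_of α
    have h2 : Set.range (FreeGroup.of : α → FreeGroup α) = {FreeGroup.of a} := by
      ext y
      constructor
      · rintro ⟨b, rfl⟩
        rw [Subsingleton.elim b a]; rfl
      · rintro rfl
        exact ⟨a, rfl⟩
    rw [h2, ← zpowers_eq_closure] at h1
    have h3 : g ∈ zpowers (FreeGroup.of a) := by rw [h1]; trivial
    exact mem_zpowers_iff.1 h3

/-- In rank at most one the group is cyclic. -/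
lemma isCyclic_of_subsing (hres : ResNilp P) (h : SameNilp P α) (hα : Subsingleton α) :
    IsCyclic P := by
  have hF := isCyclic_freeGroup hα
  have hcomm : ∀ n, (⊤ : Subgroup P).lowerCentralSeries 1 ≤
      (⊤ : Subgroup P).lowerCentralSeries n := by
    intro n
    obtain ⟨θ⟩ := h n
    have hc : IsCyclic (P ⧸ (⊤ : Subgroup P).lowerCentralSeries n) := by
      have h1 : IsCyclic (FreeGroup α ⧸ (⊤ : Subgroup (FreeGroup α)).lowerCentralSeries n) :=
        isCyclic_of_surjective (QuotientGroup.mk' _) (QuotientGroup.mk'_surjective _)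
      exact isCyclic_of_surjective θ.symm.toMonoidHom θ.symm.surjective
    rw [Subgroup.lowerCentralSeries_succ, Subgroup.commutator_le]
    intro a _ b _
    have h2 : ((a : P ⧸ (⊤ : Subgroup P).lowerCentralSeries n) * b) = b * a := by
      obtain ⟨g, hg⟩ := hc
      obtain ⟨i, hi⟩ := mem_zpowers_iff.1 (hg a)
      obtain ⟨j, hj⟩ := mem_zpowers_iff.1 (hg b)
      rw [← hi, ← hj, ← zpow_add, ← zpow_add, add_comm]
    rw [← QuotientGroup.eq_one_iff]
    rw [commutatorElement_def]
    simp only [QuotientGroup.mk_mul, QuotientGroup.mk_inv]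
    rw [h2]
    group
  have hbot : (⊤ : Subgroup P).lowerCentralSeries 1 = ⊥ := by
    rw [eq_bot_iff]
    intro g hg
    exact hres g fun n => hcomm n hg
  obtain ⟨θ⟩ := h 1
  have h1 : IsCyclic (FreeGroup α ⧸ (⊤ : Subgroup (FreeGroup α)).lowerCentralSeries 1) :=
    isCyclic_of_surjective (QuotientGroup.mk' _) (QuotientGroup.mk'_surjective _)
  have h2 : IsCyclic (P ⧸ (⊤ : Subgroup P).lowerCentralSeries 1) :=
    isCyclic_of_surjective θ.symm.toMonoidHom θ.symm.surjective
  apply isCyclic_of_injective (QuotientGroup.mk' ((⊤ : Subgroup P).lowerCentralSeries 1))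
  rw [← MonoidHom.ker_eq_bot_iff, QuotientGroup.ker_mk', hbot]

/-- The final theorem. -/
theorem final (hres : ResNilp P) (h : SameNilp P α) (N : Subgroup P) [hNn : N.Normal]
    (hN : N ≠ ⊥) (A : Finset P) (hA : closure (A : Set P) = N) :
    Finite α ∧ N.FiniteIndex ∧ (Nat.card α - 1) * N.index ≤ A.card - 1 := by
  classical
  have hA0 : 1 ≤ A.card := by
    rw [Nat.one_le_iff_ne_zero]
    intro h0
    rw [Finset.card_eq_zero] at h0
    apply hN
    rw [← hA, h0]
    simp
  have hfin : Finite α := by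
    by_contra hinf
    rw [not_finite_iff_infinite] at hinf
    let a : Fin (A.card + 1) ↪ α := Fin.valEmbedding.trans (Infinite.natEmbedding α)
    have h1 := main_ineq hres h N hN A hA (by omega) a {((1 : P) : P ⧸ N)}
    rw [Finset.card_singleton] at h1
    push_cast at h1
    linarith
  refine ⟨hfin, ?_⟩
  have : Fintype α := Fintype.ofFinite α
  rcases Nat.lt_or_ge (Nat.card α) 2 with hlt | hge
  · -- cyclic case
    have hα : Subsingleton α := by
      rw [← Finite.card_le_one_iff_subsingleton]; omega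
    have hcyc := isCyclic_of_subsing hres h hα
    obtain ⟨g, hg⟩ := hcyc
    obtain ⟨⟨y, hyN⟩, hy1⟩ := (Subgroup.ne_bot_iff_exists_ne_one).1 hN
    have hy1' : y ≠ 1 := fun h0 => hy1 (Subtype.ext h0)
    obtain ⟨k, hk⟩ := mem_zpowers_iff.1 (hg y)
    have hk0 : k ≠ 0 := by
      rintro rfl
      rw [zpow_zero] at hk
      exact hy1' hk.symm
    have hord : IsOfFinOrder ((g : P) : P ⧸ N) := by
      rw [isOfFinOrder_iff_zpow_eq_one]
      refine ⟨k, hk0, ?_⟩
      rw [← QuotientGroup.mk_zpow, hk]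
      exact (QuotientGroup.eq_one_iff y).2 hyN
    have hfinq : Finite (P ⧸ N) := by
      rw [← Set.finite_univ_iff]
      refine (finite_zpowers.2 hord).subset ?_
      intro z _
      obtain ⟨w, rfl⟩ := QuotientGroup.mk_surjective z
      obtain ⟨j, hj⟩ := mem_zpowers_iff.1 (hg w)
      refine mem_zpowers_iff.2 ⟨j, ?_⟩
      rw [← QuotientGroup.mk_zpow, hj]
    refine ⟨finiteIndex_of_finite_quotient, ?_⟩
    have h0 : Nat.card α - 1 = 0 := by omega
    rw [h0, zero_mul]
    exact Nat.zero_le _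
  · have h1 : ∀ T : Finset (P ⧸ N), (Nat.card α - 1) * T.card ≤ A.card - 1 := by
      intro T
      let a : Fin (Nat.card α) ↪ α := (Finite.equivFin α).symm.toEmbedding
      have h2 := main_ineq hres h N hN A hA (by omega) a T
      have h3 : (((Nat.card α - 1) * T.card : ℕ) : ℝ) ≤ ((A.card - 1 : ℕ) : ℝ) := by
        rw [Nat.cast_mul, Nat.cast_sub (by omega), Nat.cast_sub hA0, Nat.cast_one, mul_comm]
        exact h2
      exact_mod_cast h3
    have h4 : Finite (P ⧸ N) := by
      by_contra hinf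
      rw [not_finite_iff_infinite] at hinf
      obtain ⟨T, hT⟩ := Infinite.exists_subset_card_eq (P ⧸ N) A.card
      have h5 := h1 T
      rw [hT] at h5
      have : A.card ≤ (Nat.card α - 1) * A.card := Nat.le_mul_of_pos_left _ (by omega)
      omega
    have : Fintype (P ⧸ N) := Fintype.ofFinite _
    refine ⟨finiteIndex_of_finite_quotient, ?_⟩
    have h5 := h1 Finset.univ
    rwa [Finset.card_univ, ← Nat.card_eq_fintype_card] at h5

end

end Pool.Agent.Lib.MP_f3dc04_al
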