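import Mathlib

/-!
Weighted lower central filtrations of free groups and residual finiteness-`p` of their quotients.
-/

namespace Pool.Agent.Lib.MP_f3dc04_al

open Subgroup
open scoped commutatorElement

/-- An `N`-series of a group. -/
structure IsNSer {G : Type*} [Group G] (s : ℕ → Subgroup G) : Prop where
  anti : Antitone s
  zero : s 0 = ⊤
  comm : ∀ i j, ⁅s i, s j⁆ ≤ s (i + j)

section basic

variable {G H Y : Type*} [Group G] [Group H]

lemma IsNSer.normal {s : ℕ → Subgroup G} (h : IsNSer s) (n : ℕ) : (s n).Normal := by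
  rw [← commutator_top_left_le_iff]
  have := h.comm 0 n
  rwa [h.zero, zero_add] at this

lemma IsNSer.comap {s : ℕ → Subgroup H} (h : IsNSer s) (f : G →* H) :
    IsNSer (fun n => (s n).comap f) where
  anti := fun _ _ hab => comap_mono (h.anti hab)
  zero := by simp [h.zero]
  comm := by
    intro i j
    rw [commutator_le]
    intro a ha b hb
    rw [mem_comap, map_commutatorElement]
    exact h.comm i j (commutator_mem_commutator ha hb)

lemma IsNSer.map {s : ℕ → Subgroup G} (h : IsNSer s) (f : G →* H) (hf : Function.Surjective f) :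
    IsNSer (fun n => (s n).map f) where
  anti := fun _ _ hab => map_mono (h.anti hab)
  zero := by rw [h.zero, Subgroup.map_top_of_surjective f hf]
  comm := by
    intro i j
    rw [← map_commutator]
    exact map_mono (h.comm i j)

/-- The smallest `N`-series in which the generator `g y` has weight at least `wt y`. -/
def wser (g : Y → G) (wt : Y → ℕ) (n : ℕ) : Subgroup G :=
  sInf {K | ∃ s : ℕ → Subgroup G, IsNSer s ∧ (∀ y, g y ∈ s (wt y)) ∧ K = s n}

lemma mem_wser {g : Y → G} {wt : Y → ℕ} {n : ℕ} {x : G} :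
    x ∈ wser g wt n ↔ ∀ s : ℕ → Subgroup G, IsNSer s → (∀ y, g y ∈ s (wt y)) → x ∈ s n := by
  unfold wser
  rw [mem_sInf]
  constructor
  · intro h s hs hg
    exact h _ ⟨s, hs, hg, rfl⟩
  · rintro h K ⟨s, hs, hg, rfl⟩
    exact h s hs hg

lemma wser_le {g : Y → G} {wt : Y → ℕ} {s : ℕ → Subgroup G} (hs : IsNSer s)
    (hg : ∀ y, g y ∈ s (wt y)) (n : ℕ) : wser g wt n ≤ s n :=
  fun _ hx => mem_wser.1 hx s hs hg

lemma gen_mem_wser (g : Y → G) (wt : Y → ℕ) (y : Y) : g y ∈ wser g wt (wt y) :=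
  mem_wser.2 fun _ _ hg => hg y

lemma wser_isNSer (g : Y → G) (wt : Y → ℕ) : IsNSer (wser g wt) where
  anti := by
    intro a b hab x hx
    rw [mem_wser] at hx ⊢
    intro s hs hg
    exact hs.anti hab (hx s hs hg)
  zero := by
    rw [eq_top_iff]
    intro x _
    rw [mem_wser]
    intro s hs _
    rw [hs.zero]; trivial
  comm := by
    intro i j
    rw [commutator_le]
    intro a ha b hb
    rw [mem_wser] at ha hb ⊢
    intro s hs hg
    exact hs.comm i j (commutator_mem_commutator (ha s hs hg) (hb s hs hg))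

instance (g : Y → G) (wt : Y → ℕ) (n : ℕ) : (wser g wt n).Normal := (wser_isNSer g wt).normal n

lemma wser_eq_top {g : Y → G} {wt : Y → ℕ} {w : ℕ} (hgen : closure (Set.range g) = ⊤)
    (hw : ∀ y, w ≤ wt y) : wser g wt w = ⊤ := by
  rw [eq_top_iff, ← hgen, closure_le]
  rintro _ ⟨y, rfl⟩
  exact (wser_isNSer g wt).anti (hw y) (gen_mem_wser g wt y)

lemma closure_range_of (Y : Type*) : closure (Set.range (FreeGroup.of : Y → FreeGroup Y)) = ⊤ :=
  FreeGroup.closure_range_of Y

/-- the lower central series is an `N`-series (after a shift) -/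
lemma lcs_comm (G : Type*) [Group G] (i j : ℕ) :
    ⁅(⊤ : Subgroup G).lowerCentralSeries i, (⊤ : Subgroup G).lowerCentralSeries j⁆ ≤
      (⊤ : Subgroup G).lowerCentralSeries (i + j + 1) := by
  induction j generalizing i with
  | zero =>
    rw [Subgroup.lowerCentralSeries_zero, add_zero, Subgroup.lowerCentralSeries_succ]
  | succ j ih =>
    -- pass to the quotient by `γ_{i+j+3}`
    set K : Subgroup G := (⊤ : Subgroup G).lowerCentralSeries (i + (j + 1) + 1) with hK
    have h1 : ⁅⁅(⊤ : Subgroup G).lowerCentralSeries i, (⊤ : Subgroup G)⁆,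
        (⊤ : Subgroup G).lowerCentralSeries j⁆ ≤ K := by
      rw [← Subgroup.lowerCentralSeries_succ]
      refine (ih (i + 1)).trans (le_of_eq ?_)
      rw [hK]; congr 1; ring
    have h2 : ⁅⁅(⊤ : Subgroup G).lowerCentralSeries i, (⊤ : Subgroup G).lowerCentralSeries j⁆,
        (⊤ : Subgroup G)⁆ ≤ K := by
      refine (commutator_mono (ih i) le_rfl).trans (le_of_eq ?_)
      rw [← Subgroup.lowerCentralSeries_succ, hK]; congr 1
    let q := QuotientGroup.mk' K
    have e : ∀ A B C : Subgroup G, ⁅⁅A, B⁆, C⁆ ≤ K ↔ ⁅⁅A.map q, B.map q⁆, C.map q⁆ = ⊥ := by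
      intro A B C
      rw [← map_commutator, ← map_commutator, Subgroup.map_eq_bot_iff, QuotientGroup.ker_mk']
    rw [Subgroup.lowerCentralSeries_succ, commutator_comm, e]
    apply commutator_commutator_eq_bot_of_rotate
    · rw [← e, commutator_comm (⊤ : Subgroup G)]; exact h1
    · rw [← e]; exact h2

/-- The elements moved only slightly by an endomorphism form an `N`-series. -/
lemma unip_isNSer {s : ℕ → Subgroup G} (hs : IsNSer s) (τ : G →* G) (w : ℕ) (hw : s w = ⊤) :
    ∃ t : ℕ → Subgroup G, IsNSer t ∧ ∀ k u, u ∈ t k ↔ (u ∈ s k ∧ u⁻¹ * τ u ∈ s (k + w)) := by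
  have hn : ∀ k, (s k).Normal := hs.normal
  refine ⟨fun k =>
    { carrier := {u | u ∈ s k ∧ u⁻¹ * τ u ∈ s (k + w)}
      mul_mem' := ?_
      one_mem' := ?_
      inv_mem' := ?_ }, ?_, fun k u => Iff.rfl⟩
  · rintro a b ⟨ha, ha'⟩ ⟨hb, hb'⟩
    refine ⟨mul_mem ha hb, ?_⟩
    have h1 : (a * b)⁻¹ * τ (a * b) = (b⁻¹ * (a⁻¹ * τ a) * b) * (b⁻¹ * τ b) := by
      rw [map_mul]; group
    rw [h1]
    refine mul_mem ?_ hb'
    have := (hn (k + w)).conj_mem _ ha' b⁻¹
    simpa using this
  · exact ⟨one_mem _, by simp [one_mem]⟩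
  · rintro a ⟨ha, ha'⟩
    refine ⟨inv_mem ha, ?_⟩
    have h1 : a⁻¹⁻¹ * τ a⁻¹ = a * (a⁻¹ * τ a)⁻¹ * a⁻¹ := by
      rw [map_inv]; group
    change a⁻¹⁻¹ * τ a⁻¹ ∈ s (k + w)
    rw [h1]
    exact (hn (k + w)).conj_mem _ (inv_mem ha') a
  · refine ⟨?_, ?_, ?_⟩
    · rintro a b hab u ⟨h1, h2⟩
      exact ⟨hs.anti hab h1, hs.anti (by omega) h2⟩
    · rw [eq_top_iff]
      rintro u _
      refine ⟨by rw [hs.zero]; trivial, ?_⟩
      rw [zero_add, hw]; trivial
    · intro i j
      rw [commutator_le]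
      rintro u ⟨hu, hu'⟩ v ⟨hv, hv'⟩
      refine ⟨hs.comm i j (commutator_mem_commutator hu hv), ?_⟩
      have hnK := hn (i + j + w)
      rw [← QuotientGroup.eq_one_iff (N := s (i + j + w))]
      set q := QuotientGroup.mk' (s (i + j + w)) with hq
      change q (⁅u, v⁆⁻¹ * τ ⁅u, v⁆) = 1
      obtain ⟨a, ha⟩ : ∃ a, a = u⁻¹ * τ u := ⟨_, rfl⟩
      obtain ⟨b, hb⟩ : ∃ b, b = v⁻¹ * τ v := ⟨_, rfl⟩
      have hτu : τ u = u * a := by rw [ha]; group
      have hτv : τ v = v * b := by rw [hb]; group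
      rw [← ha] at hu'
      rw [← hb] at hv'
      have key : ∀ c d : G, ⁅c, d⁆ ∈ s (i + j + w) → q c * q d = q d * q c := by
        intro c d h
        rw [← commutatorElement_eq_one_iff_mul_comm, ← map_commutatorElement]
        exact (QuotientGroup.eq_one_iff _).2 h
      have c1 : q a * q v = q v * q a :=
        key _ _ (hs.anti (by omega) (hs.comm (i + w) j (commutator_mem_commutator hu' hv)))
      have c2 : q a * q b = q b * q a :=
        key _ _ (hs.anti (by omega) (hs.comm (i + w) (j + w) (commutator_mem_commutator hu' hv')))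
      have c3 : q u * q b = q b * q u :=
        key _ _ (hs.anti (by omega) (hs.comm i (j + w) (commutator_mem_commutator hu hv')))
      have : q (τ ⁅u, v⁆) = q ⁅u, v⁆ := by
        simp only [map_commutatorElement, hτu, hτv, map_mul]
        simp only [commutatorElement_def]
        calc q u * q a * (q v * q b) * (q u * q a)⁻¹ * (q v * q b)⁻¹
            = q u * (q a * q v) * q b * (q a)⁻¹ * (q u)⁻¹ * (q b)⁻¹ * (q v)⁻¹ := by group
          _ = q u * q v * (q a * q b) * (q a)⁻¹ * (q u)⁻¹ * (q b)⁻¹ * (q v)⁻¹ := by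
              rw [c1]; group
          _ = q u * q v * (q b * (q u)⁻¹ * (q b)⁻¹) * (q v)⁻¹ := by rw [c2]; group
          _ = q u * q v * (q u)⁻¹ * (q v)⁻¹ := by
              have : q b * (q u)⁻¹ * (q b)⁻¹ = (q u)⁻¹ := by
                rw [mul_inv_eq_iff_eq_mul, eq_inv_mul_iff_mul_eq, ← mul_assoc, c3]; group
              rw [this]
      rw [map_mul, map_inv, this, inv_mul_cancel]

lemma pow_unip {Q : Type*} [Group Q] {s : ℕ → Subgroup Q} (hs : IsNSer s) (T : Monoid.End Q)
    {w : ℕ} (hT : ∀ k, ∀ u ∈ s k, u⁻¹ * T u ∈ s (k + w)) :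
    ∀ j k, ∀ u ∈ s k, u⁻¹ * (T ^ j) u ∈ s (k + w) ∧ (T ^ j) u ∈ s k := by
  intro j
  induction j with
  | zero =>
    intro k u hu
    have : (T ^ 0) u = u := by simp
    rw [this, inv_mul_cancel]
    exact ⟨one_mem _, hu⟩
  | succ j ih =>
    intro k u hu
    obtain ⟨h1, h2⟩ := ih k u hu
    have h3 := hT k _ h2
    have e : (T ^ (j + 1)) u = T ((T ^ j) u) := by rw [pow_succ']; rfl
    have h4 : u⁻¹ * (T ^ (j + 1)) u ∈ s (k + w) := by
      rw [e]
      have : u⁻¹ * T ((T ^ j) u) = (u⁻¹ * (T ^ j) u) * (((T ^ j) u)⁻¹ * T ((T ^ j) u)) := by group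
      rw [this]
      exact mul_mem h1 h3
    refine ⟨h4, ?_⟩
    have : (T ^ (j + 1)) u = u * (u⁻¹ * (T ^ (j + 1)) u) := by group
    rw [this]
    exact mul_mem hu (hs.anti (by omega) h4)

/-- A unipotent endomorphism of a finite `p`-group has `p`-power order. -/
lemma unip_pow {Q : Type*} [Group Q] {s : ℕ → Subgroup Q} (hs : IsNSer s) (T : Monoid.End Q)
    {w n m : ℕ} (hw : 1 ≤ w) (hn : s n = ⊥) (hT : ∀ k, ∀ u ∈ s k, u⁻¹ * T u ∈ s (k + w))
    (p : ℕ) (hm : ∀ u : Q, u ^ p ^ m = 1) : ∃ e : ℕ, T ^ p ^ e = 1 := by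
  have hpow := pow_unip hs T hT
  have main : ∀ i, ∀ k, n ≤ k + i → ∃ e : ℕ, ∀ u ∈ s k, (T ^ p ^ e) u = u := by
    intro i
    induction i with
    | zero =>
      intro k hk
      refine ⟨0, fun u hu => ?_⟩
      have : u ∈ s n := hs.anti (by omega) hu
      rw [hn, mem_bot] at this
      subst this; simp
    | succ i ih =>
      intro k hk
      obtain ⟨e, he⟩ := ih (k + 1) (by omega)
      refine ⟨e + m, fun u hu => ?_⟩
      set T' := T ^ p ^ e with hT'
      obtain ⟨z, hz⟩ : ∃ z, z = u⁻¹ * T' u := ⟨_, rfl⟩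
      have hzs : z ∈ s (k + 1) := by
        rw [hz]; exact hs.anti (by omega) (hpow _ k u hu).1
      have hTu : T' u = u * z := by rw [hz]; group
      have hTz : T' z = z := he z hzs
      have hit : ∀ j : ℕ, (T' ^ j) u = u * z ^ j := by
        intro j
        induction j with
        | zero => simp
        | succ j ihj =>
          have e1 : (T' ^ (j + 1)) u = T' ((T' ^ j) u) := by rw [pow_succ']; rfl
          rw [e1, ihj, map_mul, map_pow, hTz, hTu, pow_succ', mul_assoc]
      have : T ^ p ^ (e + m) = T' ^ p ^ m := by rw [hT', ← pow_mul, pow_add]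
      rw [this, hit, hm, mul_one]
  obtain ⟨e, he⟩ := main n 0 (by omega)
  refine ⟨e, ?_⟩
  ext u
  exact he u (by rw [hs.zero]; trivial)

end basic

end Pool.Agent.Lib.MP_f3dc04_al
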